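import Pool.Agent.H691R3.Places

/-!
Local and global estimates for a determinant in a number field (helper884).
-/

set_option autoImplicit false

namespace Pool.Agent.Y884.AK

open Finset NumberField IsDedekindDomain Height Pool.Agent.H691R3
open Real (posLog)

variable {K : Type} [Field K] [NumberField K]

theorem posLog_nonneg' (x : ℝ) : 0 ≤ Real.posLog x := Real.posLog_nonneg

theorem log_le_posLog (x : ℝ) : Real.log x ≤ Real.posLog x := by
  rw [Real.posLog_apply]
  exact le_max_right _ _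

theorem le_exp_posLog {x : ℝ} (hx : 0 ≤ x) : x ≤ Real.exp (Real.posLog x) := by
  rcases hx.eq_or_lt with h | h
  · rw [← h]; exact (Real.exp_pos _).le
  · calc x = Real.exp (Real.log x) := (Real.exp_log h).symm
      _ ≤ _ := Real.exp_le_exp.mpr (log_le_posLog x)

/-- the support of the local heights -/
theorem posLog_support (x : K) :
    (Function.support fun v : HeightOneSpectrum (𝓞 K) => Real.posLog (fv v x)).Finite := by
  by_cases hx : x = 0
  · subst hx
    refine Set.finite_empty.subset ?_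
    intro v hv
    simp only [Function.mem_support, map_zero] at hv
    exact absurd (by simp [Real.posLog]) hv
  · refine (fv_support_finite hx).subset ?_
    intro v hv
    simp only [Function.mem_support, Set.mem_ofPred_eq] at hv ⊢
    intro h
    apply hv
    rw [h]
    simp [Real.posLog]

theorem lh_eq (x : K) : logHeight₁ x =
    ∑ w : InfinitePlace K, (w.mult : ℝ) * Real.posLog (w x) +
      ∑ᶠ v : HeightOneSpectrum (𝓞 K), Real.posLog (fv v x) := by
  rw [NumberField.logHeight₁_eq]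
  congr 1
  rw [← finsum_comp_equiv (FinitePlace.equivHeightOneSpectrum (K := K)).symm]
  rfl

theorem sum_mult : ∑ w : InfinitePlace K, (w.mult : ℝ) = (Module.finrank ℚ K : ℝ) := by
  rw [← Nat.cast_sum, NumberField.InfinitePlace.sum_mult_eq]

/-- the product formula against local upper bounds -/
theorem global_bound {Δ x y : K} (hΔ : Δ ≠ 0) (S : Finset (HeightOneSpectrum (𝓞 K)))
    (G : HeightOneSpectrum (𝓞 K) → ℝ) (A : InfinitePlace K → ℝ) (a b : ℝ)
    (hw : ∀ w : InfinitePlace K, Real.log (w Δ) ≤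
      A w + a * Real.posLog (w x) + b * Real.posLog (w y))
    (hv : ∀ v, v ∉ S → Real.log (fv v Δ) ≤ a * Real.posLog (fv v x) + b * Real.posLog (fv v y))
    (hS : ∀ v ∈ S, Real.log (fv v Δ) ≤
      -G v + a * Real.posLog (fv v x) + b * Real.posLog (fv v y)) :
    ∑ v ∈ S, G v ≤ ∑ w : InfinitePlace K, (w.mult : ℝ) * A w + a * logHeight₁ x +
      b * logHeight₁ y := by
  classical
  have h0 := log_product_formula (K := K) hΔ
  rw [lh_eq x, lh_eq y]
  obtain ⟨T, hT⟩ : ∃ T : Finset (HeightOneSpectrum (𝓞 K)),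
      T = S ∪ (log_fv_support_finite hΔ).toFinset ∪ (posLog_support x).toFinset ∪
        (posLog_support y).toFinset := ⟨_, rfl⟩
  have hST : S ⊆ T := by
    rw [hT]
    intro v hv
    simp only [Finset.mem_union]
    tauto
  have e1 : ∑ᶠ v : HeightOneSpectrum (𝓞 K), Real.log (fv v Δ) =
      ∑ v ∈ T, Real.log (fv v Δ) := by
    refine finsum_eq_sum_of_support_subset _ ?_
    intro v hv
    rw [hT]
    simp only [Finset.coe_union, Set.Finite.coe_toFinset, Set.mem_union]
    tauto
  have e2 : ∑ᶠ v : HeightOneSpectrum (𝓞 K), Real.posLog (fv v x) =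
      ∑ v ∈ T, Real.posLog (fv v x) := by
    refine finsum_eq_sum_of_support_subset _ ?_
    intro v hv
    rw [hT]
    simp only [Finset.coe_union, Set.Finite.coe_toFinset, Set.mem_union]
    tauto
  have e3 : ∑ᶠ v : HeightOneSpectrum (𝓞 K), Real.posLog (fv v y) =
      ∑ v ∈ T, Real.posLog (fv v y) := by
    refine finsum_eq_sum_of_support_subset _ ?_
    intro v hv
    rw [hT]
    simp only [Finset.coe_union, Set.Finite.coe_toFinset, Set.mem_union]
    tauto
  rw [e1] at h0
  rw [e2, e3]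
  have h1 : ∑ w : InfinitePlace K, (w.mult : ℝ) * Real.log (w Δ) ≤
      ∑ w : InfinitePlace K, (w.mult : ℝ) * A w +
        a * ∑ w : InfinitePlace K, (w.mult : ℝ) * Real.posLog (w x) +
        b * ∑ w : InfinitePlace K, (w.mult : ℝ) * Real.posLog (w y) := by
    rw [Finset.mul_sum, Finset.mul_sum, ← Finset.sum_add_distrib, ← Finset.sum_add_distrib]
    refine Finset.sum_le_sum fun w _ => ?_
    have := mul_le_mul_of_nonneg_left (hw w) (Nat.cast_nonneg w.mult : (0 : ℝ) ≤ w.mult)
    linarith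
  have h2 : ∑ v ∈ T, Real.log (fv v Δ) ≤ -(∑ v ∈ S, G v) +
      a * ∑ v ∈ T, Real.posLog (fv v x) + b * ∑ v ∈ T, Real.posLog (fv v y) := by
    have h3 : ∑ v ∈ T, Real.log (fv v Δ) ≤ ∑ v ∈ T, ((if v ∈ S then -G v else 0) +
        a * Real.posLog (fv v x) + b * Real.posLog (fv v y)) := by
      refine Finset.sum_le_sum fun v _ => ?_
      by_cases h : v ∈ S
      · rw [if_pos h]; exact hS v h
      · rw [if_neg h, zero_add]; exact hv v h
    rw [Finset.sum_add_distrib, Finset.sum_add_distrib, ← Finset.mul_sum, ← Finset.mul_sum,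
      ← Finset.sum_filter] at h3
    have h4 : T.filter (fun v => v ∈ S) = S := by
      ext v
      simp only [Finset.mem_filter]
      exact ⟨fun h => h.2, fun h => ⟨hST h, h⟩⟩
    rw [h4, Finset.sum_neg_distrib] at h3
    exact h3
  linarith

/-- Liouville at finite places -/
theorem liou_fin {x : K} (hx : x ≠ 0) (S : Finset (HeightOneSpectrum (𝓞 K))) :
    ∑ v ∈ S, -Real.log (fv v x) ≤ logHeight₁ x := by
  have h := global_bound (x := x) (y := 1) hx S (fun v => -Real.log (fv v x)) (fun _ => 0) 1 0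
    (by intro w; have := log_le_posLog (w x); linarith)
    (by intro v _; have := log_le_posLog (fv v x); linarith)
    (by intro v _; have := posLog_nonneg' (fv v x); linarith)
  simpa using h

/-- Liouville at an infinite place -/
theorem liou_inf {x : K} (hx : x ≠ 0) (w0 : InfinitePlace K) :
    -((w0.mult : ℝ) * Real.log (w0 x)) ≤ logHeight₁ x := by
  classical
  have h := global_bound (x := x) (y := 1) hx ∅ (fun _ => 0)
    (fun w => if w = w0 then Real.log (w0 x) else 0) 1 0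
    (by
      intro w
      by_cases hw : w = w0
      · subst hw
        have := posLog_nonneg' (w x)
        rw [if_pos rfl]
        linarith
      · have := log_le_posLog (w x)
        rw [if_neg hw]
        linarith)
    (by intro v _; have := log_le_posLog (fv v x); linarith)
    (by intro v hv; simp at hv)
  simp only [Finset.sum_empty, mul_ite, mul_zero, Finset.sum_ite_eq', Finset.mem_univ,
    if_true, one_mul, zero_mul, add_zero] at h
  linarith

/-- the height of a difference with one -/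
theorem lh_sub_one (x : K) : logHeight₁ (x - 1) ≤ logHeight₁ x +
    Module.finrank ℚ K * Real.log 2 := by
  have h := logHeight₁_sub_le x (1 : K)
  rw [logHeight₁_one, NumberField.totalWeight_eq_finrank] at h
  linarith

/-- the determinant at a nonarchimedean absolute value -/
theorem det_na {F : Type*} [Field F] (v : AbsoluteValue F ℝ)
    (hna : ∀ a b, v (a + b) ≤ max (v a) (v b)) {n : ℕ} (M : Matrix (Fin n) (Fin n) F) {B : ℝ}
    (hB : ∀ i j, v (M i j) ≤ B) : v M.det ≤ B ^ n := by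
  classical
  rw [Matrix.det_apply]
  have hB0 : 0 ≤ B ^ n := by
    rcases Nat.eq_zero_or_pos n with h | h
    · subst h; simp
    · exact pow_nonneg ((v.nonneg _).trans (hB ⟨0, h⟩ ⟨0, h⟩)) _
  have hsum : ∀ (s : Finset (Equiv.Perm (Fin n))) (f : Equiv.Perm (Fin n) → F),
      (∀ i ∈ s, v (f i) ≤ B ^ n) → v (∑ i ∈ s, f i) ≤ B ^ n := by
    intro s f
    induction s using Finset.induction_on with
    | empty => intro _; simpa using hB0
    | insert i s hi ih =>
      intro h
      rw [Finset.sum_insert hi]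
      refine (hna _ _).trans (max_le (h i (Finset.mem_insert_self _ _)) (ih ?_))
      exact fun j hj => h j (Finset.mem_insert_of_mem hj)
  refine hsum _ _ ?_
  intro σ _
  have h1 : v (Equiv.Perm.sign σ • ∏ i, M (σ i) i) = ∏ i, v (M (σ i) i) := by
    rw [v.map_units_int_smul, map_prod]
  rw [h1]
  calc ∏ i, v (M (σ i) i) ≤ ∏ _i : Fin n, B :=
        Finset.prod_le_prod (fun i _ => v.nonneg _) (fun i _ => hB _ _)
    _ = B ^ n := by simp

/-- one entry without the binomial coefficient -/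
theorem mono_bound {F : Type*} [Field F] (v : AbsoluteValue F ℝ) (x y : F) {r s l R S : ℕ}
    (hr : r ≤ R) (hs : s ≤ S) (hl : l ≤ 7) :
    v ((x ^ r * y ^ s) ^ l) ≤ Real.exp (7 * R * Real.posLog (v x) + 7 * S * Real.posLog (v y)) := by
  rw [map_pow, map_mul, map_pow, map_pow]
  have h1 := le_exp_posLog (v.nonneg x)
  have h2 := le_exp_posLog (v.nonneg y)
  have h3 := posLog_nonneg' (v x)
  have h4 := posLog_nonneg' (v y)
  have e1 : v x ^ r ≤ Real.exp (R * Real.posLog (v x)) := by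
    calc v x ^ r ≤ Real.exp (Real.posLog (v x)) ^ r := pow_le_pow_left₀ (v.nonneg _) h1 _
      _ = Real.exp (r * Real.posLog (v x)) := by rw [← Real.exp_nat_mul]
      _ ≤ _ := by
        apply Real.exp_le_exp.mpr
        exact mul_le_mul_of_nonneg_right (by exact_mod_cast hr) h3
  have e2 : v y ^ s ≤ Real.exp (S * Real.posLog (v y)) := by
    calc v y ^ s ≤ Real.exp (Real.posLog (v y)) ^ s := pow_le_pow_left₀ (v.nonneg _) h2 _
      _ = Real.exp (s * Real.posLog (v y)) := by rw [← Real.exp_nat_mul]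
      _ ≤ _ := by
        apply Real.exp_le_exp.mpr
        exact mul_le_mul_of_nonneg_right (by exact_mod_cast hs) h4
  calc (v x ^ r * v y ^ s) ^ l
      ≤ (Real.exp (R * Real.posLog (v x)) * Real.exp (S * Real.posLog (v y))) ^ l := by
        apply pow_le_pow_left₀ (mul_nonneg (pow_nonneg (v.nonneg _) _) (pow_nonneg (v.nonneg _) _))
        exact mul_le_mul e1 e2 (pow_nonneg (v.nonneg _) _) (Real.exp_pos _).le
    _ = Real.exp (l * (R * Real.posLog (v x) + S * Real.posLog (v y))) := by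
        rw [← Real.exp_add, ← Real.exp_nat_mul]
    _ ≤ Real.exp (7 * (R * Real.posLog (v x) + S * Real.posLog (v y))) := by
        apply Real.exp_le_exp.mpr
        apply mul_le_mul_of_nonneg_right (by exact_mod_cast hl)
        have := mul_nonneg (Nat.cast_nonneg R : (0 : ℝ) ≤ R) h3
        have := mul_nonneg (Nat.cast_nonneg S : (0 : ℝ) ≤ S) h4
        linarith
    _ = _ := by congr 1; ring

/-- the parameters -/
theorem params {g h ν : ℝ} (hg : 1 ≤ g) (hgh : g ≤ h) (hgν : g ≤ ν) :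
    ∃ R₂ S₂ N : ℕ, 1 ≤ N ∧ g * R₂ ≤ 141 * ν ∧ g * S₂ ≤ 141 * h ∧ (N - 1) * 8 < R₂ * S₂ ∧
      8 * ((R₂ + 7) * h + S₂ * ν) ≤ g * N ∧ g ^ 2 * (8 * N) ≤ 18504 * (h * ν) ∧
      8 * ((R₂ : ℝ) + 7) ≤ N := by
  have hg0 : 0 < g := by linarith
  have hh0 : 0 < h := by linarith
  have hν0 : 0 < ν := by linarith
  obtain ⟨R₂, hR₂⟩ : ∃ R₂ : ℕ, R₂ = ⌊140 * ν / g⌋₊ + 1 := ⟨_, rfl⟩
  obtain ⟨S₂, hS₂⟩ : ∃ S₂ : ℕ, S₂ = ⌊140 * h / g⌋₊ + 1 := ⟨_, rfl⟩
  obtain ⟨N₁, hN₁⟩ : ∃ N₁ : ℕ, N₁ = ⌊8 * (((R₂ : ℝ) + 7) * h + S₂ * ν) / g⌋₊ := ⟨_, rfl⟩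
  have a1 : g * R₂ ≤ 141 * ν := by
    have h1 : ((⌊140 * ν / g⌋₊ : ℕ) : ℝ) ≤ 140 * ν / g := Nat.floor_le (by positivity)
    rw [le_div_iff₀ hg0] at h1
    rw [hR₂]; push_cast
    nlinarith
  have a2 : 140 * ν < g * R₂ := by
    have h1 := Nat.lt_floor_add_one (140 * ν / g)
    rw [div_lt_iff₀ hg0] at h1
    rw [hR₂]; push_cast
    linarith
  have b1 : g * S₂ ≤ 141 * h := by
    have h1 : ((⌊140 * h / g⌋₊ : ℕ) : ℝ) ≤ 140 * h / g := Nat.floor_le (by positivity)
    rw [le_div_iff₀ hg0] at h1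
    rw [hS₂]; push_cast
    nlinarith
  have b2 : 140 * h < g * S₂ := by
    have h1 := Nat.lt_floor_add_one (140 * h / g)
    rw [div_lt_iff₀ hg0] at h1
    rw [hS₂]; push_cast
    linarith
  have hsum0 : 0 ≤ ((R₂ : ℝ) + 7) * h + S₂ * ν := by positivity
  have c1 : g * N₁ ≤ 8 * (((R₂ : ℝ) + 7) * h + S₂ * ν) := by
    have h1 : ((N₁ : ℕ) : ℝ) ≤ 8 * (((R₂ : ℝ) + 7) * h + S₂ * ν) / g := by
      rw [hN₁]; exact Nat.floor_le (by positivity)
    rw [le_div_iff₀ hg0] at h1
    linarith
  have c2 : 8 * (((R₂ : ℝ) + 7) * h + S₂ * ν) < g * (N₁ + 1) := by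
    have h1 := Nat.lt_floor_add_one (8 * (((R₂ : ℝ) + 7) * h + S₂ * ν) / g)
    rw [div_lt_iff₀ hg0, ← hN₁] at h1
    linarith
  have hν' : 0 ≤ h * ν := by positivity
  have hgh2 : g * h ≤ h * ν := by nlinarith
  have hg2 : g ^ 2 ≤ h * ν := by nlinarith
  have c3 : g * (((R₂ : ℝ) + 7) * h + S₂ * ν) ≤ 289 * (h * ν) := by
    have e1 : g * R₂ * h ≤ 141 * ν * h := mul_le_mul_of_nonneg_right a1 hh0.le
    have e2 : g * S₂ * ν ≤ 141 * h * ν := mul_le_mul_of_nonneg_right b1 hν0.le
    nlinarith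
  have c4 : g ^ 2 * N₁ ≤ 2312 * (h * ν) := by
    have := mul_le_mul_of_nonneg_left c1 hg0.le
    nlinarith
  have c5 : 19600 * (h * ν) < g ^ 2 * (R₂ * S₂) := by
    have := mul_lt_mul'' a2 b2 (by positivity) (by positivity)
    nlinarith
  refine ⟨R₂, S₂, N₁ + 1, by omega, a1, b1, ?_, by push_cast; linarith, ?_, ?_⟩
  · rw [Nat.add_sub_cancel]
    have e1 : g ^ 2 * (N₁ * 8) < g ^ 2 * (R₂ * S₂) := by nlinarith
    have e2 := lt_of_mul_lt_mul_left e1 (by positivity)
    exact_mod_cast e2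
  · push_cast
    nlinarith
  · push_cast
    have e1 : 8 * (((R₂ : ℝ) + 7) * g) ≤ 8 * (((R₂ : ℝ) + 7) * h) := by
      have : ((R₂ : ℝ) + 7) * g ≤ ((R₂ : ℝ) + 7) * h :=
        mul_le_mul_of_nonneg_left hgh (by positivity)
      linarith
    have e2 : 0 ≤ (S₂ : ℝ) * ν := by positivity
    have e3 : g * (8 * ((R₂ : ℝ) + 7)) ≤ g * (N₁ + 1) := by nlinarith
    exact le_of_mul_le_mul_left e3 hg0

end Pool.Agent.Y884.AK
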