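import Pool.Agent.Y728.AK.Def
import Pool.Agent.H374R2.T.TaskE
import Pool.Agent.Y884.AK.Gen

/-!
Two numbers close to one in a number field (helper884).
-/

set_option autoImplicit false

namespace Pool.Agent.Y884.AK

open Finset NumberField IsDedekindDomain Height Pool.Agent.H691R3
open Pool.Agent.Y728.AK (Mx DetEx DetFin DetInf CoreFin CoreInf)
open Pool.Agent.TH876.Loc (Pr fv_natCast_le)

theorem expn (N : ℕ) (hN : 1 ≤ N) :
    ((N * 8 * (N * 8 - 1) / 2 - N * 8 * N : ℕ) : ℝ) = 24 * (N : ℝ) ^ 2 - 4 * N := by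
  have hKK : N ≤ N ^ 2 := Nat.le_self_pow (by norm_num) N
  have e1 : N * 8 * (N * 8 - 1) = 2 * (32 * N ^ 2 - 4 * N) := by
    zify [show 1 ≤ N * 8 by omega, show 4 * N ≤ 32 * N ^ 2 by omega]
    ring
  have e2 : N * 8 * N = 8 * N ^ 2 := by ring
  have e3 : N * 8 * (N * 8 - 1) / 2 - N * 8 * N = 24 * N ^ 2 - 4 * N := by
    rw [e1, Nat.mul_div_cancel_left _ (by norm_num), e2]
    omega
  rw [e3, Nat.cast_sub (by omega)]
  push_cast
  ring

theorem log_fact (N : ℕ) (hN : 1 ≤ N) :
    Real.log ((N * 8).factorial : ℝ) ≤ 8 * N * (N + 2) := by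
  have hN0 : (0 : ℝ) < N := by exact_mod_cast hN
  have h1 : Real.log ((N * 8).factorial : ℝ) ≤ Real.log (((N : ℝ) * 8) ^ (N * 8)) := by
    apply Real.log_le_log (by exact_mod_cast Nat.factorial_pos _)
    exact_mod_cast Nat.factorial_le_pow (N * 8)
  have h2 : Real.log ((N : ℝ) * 8) ≤ N + 2 := by
    rw [Real.log_mul hN0.ne' (by norm_num)]
    have e1 := Real.log_le_sub_one_of_pos hN0
    have e2 : Real.log 8 = 3 * Real.log 2 := by
      rw [show (8 : ℝ) = 2 ^ (3 : ℕ) by norm_num, Real.log_pow]; norm_num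
    have e3 := Real.log_two_lt_d9
    rw [e2]
    linarith
  rw [Real.log_pow] at h1
  have h3 := mul_le_mul_of_nonneg_left h2 (show (0 : ℝ) ≤ ((N * 8 : ℕ) : ℝ) by positivity)
  push_cast at h1 h3
  linarith

/-- a root of unity has height zero -/
theorem lh_root {K : Type} [Field K] [NumberField K] {μ : K}
    (h : ¬ Function.Injective fun n : ℕ => μ ^ n) : logHeight₁ μ = 0 := by
  simp only [Function.Injective, not_forall] at h
  obtain ⟨a, b, hab, hne⟩ := h
  have h1 := congrArg logHeight₁ hab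
  rw [logHeight₁_pow, logHeight₁_pow] at h1
  have h2 : ((a : ℝ) - b) * logHeight₁ μ = 0 := by linarith
  rcases mul_eq_zero.mp h2 with h3 | h3
  · exfalso
    apply hne
    have : (a : ℝ) = b := by linarith
    exact_mod_cast this
  · exact h3

variable {K : Type} [Field K] [NumberField K]

theorem w_nat (w : InfinitePlace K) (n : ℕ) : w.1 (n : K) = n := by
  have : w.1 (n : K) = ‖w.embedding (n : K)‖ := (InfinitePlace.norm_embedding_eq w _).symm
  rw [this, map_natCast]
  simp

/-- the determinant at a finite place -/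
theorem det_fin_bound (v : Pr K) {β κ : K} {q N R S : ℕ} {r s k l : Fin (N * 8) → ℕ}
    (hr : ∀ a, r a ≤ R) (hs : ∀ a, s a ≤ S) (hl : ∀ a, l a < 8)
    (hdet : (Mx β κ q r s k l).det ≠ 0) :
    Real.log (fv v (Mx β κ q r s k l).det) ≤
      (8 * N * (7 * R)) * Real.posLog (fv v β) + (8 * N * (7 * S)) * Real.posLog (fv v κ) := by
  have h1 := det_na (fv v) (fv_na v) (Mx β κ q r s k l)
    (B := Real.exp (7 * R * Real.posLog (fv v β) + 7 * S * Real.posLog (fv v κ))) (by
      intro i j
      unfold Mx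
      rw [Matrix.of_apply, map_mul]
      have e1 := fv_natCast_le v (Nat.choose (r i + s i * q) (k j))
      have e2 := mono_bound (fv v) β κ (hr i) (hs i) (l := l j) (by have := hl j; omega)
      calc _ ≤ 1 * Real.exp (7 * R * Real.posLog (fv v β) + 7 * S * Real.posLog (fv v κ)) :=
            mul_le_mul e1 e2 ((fv v).nonneg _) zero_le_one
        _ = _ := one_mul _)
  have h2 := Real.log_le_log ((fv v).pos hdet) h1
  rw [Real.log_pow, Real.log_exp] at h2
  push_cast at h2
  linarith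

/-- the determinant at an infinite place -/
theorem det_inf_bound (w : InfinitePlace K) {β κ : K} {q N R S : ℕ} {r s k l : Fin (N * 8) → ℕ}
    (hN : 1 ≤ N) (hr : ∀ a, r a ≤ R) (hs : ∀ a, s a ≤ S) (hl : ∀ a, l a < 8) {B : ℝ} (hB0 : 0 < B)
    (hB : ∀ i j, ((Nat.choose (r i + s i * q) (k j) : ℕ) : ℝ) ≤ B)
    (hdet : (Mx β κ q r s k l).det ≠ 0) :
    Real.log (w (Mx β κ q r s k l).det) ≤ (8 * N * (N + 2) + 8 * N * Real.log B) +
      (8 * N * (7 * R)) * Real.posLog (w β) + (8 * N * (7 * S)) * Real.posLog (w κ) := by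
  classical
  have h1 := Matrix.det_le (A := Mx β κ q r s k l) (abv := w.1)
    (x := B * Real.exp (7 * R * Real.posLog (w.1 β) + 7 * S * Real.posLog (w.1 κ))) (by
      intro i j
      unfold Mx
      rw [Matrix.of_apply, map_mul, w_nat]
      have e2 := mono_bound w.1 β κ (hr i) (hs i) (l := l j) (by have := hl j; omega)
      exact mul_le_mul (hB i j) e2 (w.1.nonneg _) hB0.le)
  rw [Fintype.card_fin, nsmul_eq_mul] at h1
  have h2 := Real.log_le_log (w.1.pos hdet) h1
  have hf : (0 : ℝ) < ((N * 8).factorial : ℕ) := by exact_mod_cast Nat.factorial_pos _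
  rw [Real.log_mul hf.ne' (by positivity), Real.log_pow, Real.log_mul hB0.ne' (Real.exp_pos _).ne',
    Real.log_exp] at h2
  have h3 := log_fact N hN
  have e1 : w.1 β = w β := rfl
  have e2 : w.1 κ = w κ := rfl
  have e3 : w.1 (Mx β κ q r s k l).det = w (Mx β κ q r s k l).det := rfl
  rw [e1, e2, e3] at h2
  push_cast at h2
  linarith

/-- **two numbers close to one at finite places** -/
theorem core_fin (K : Type) [Field K] [NumberField K] (h1 : DetEx K) (h2 : DetFin K) :
    CoreFin K := by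
  obtain ⟨d, hd⟩ : ∃ d : ℝ, d = (Module.finrank ℚ K : ℝ) := ⟨_, rfl⟩
  have hd1 : 1 ≤ d := by
    rw [hd]
    exact_mod_cast Nat.succ_le_of_lt (Module.finrank_pos (R := ℚ) (M := K))
  refine ⟨20000 * d, by linarith, ?_⟩
  intro S gv g h ν E Y μ κ hμ hκ hgv hg hc hgh hgν hhμ hhκ hfμ hfκ a1 a2 a3
  have hlog2 := Real.log_two_lt_d9
  have hg1 : 1 ≤ g := by linarith
  have hg0 : 0 < g := by linarith
  have hh0 : 0 < h := by linarith
  have hν0 : 0 < ν := by linarith
  have hhν : 0 < h * ν := by positivity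
  have hdν : ν ≤ d * ν := le_mul_of_one_le_left hν0.le hd1
  have hdhν : h * ν ≤ d * (h * ν) := le_mul_of_one_le_left hhν.le hd1
  by_cases hinj : Function.Injective fun n : ℕ => μ ^ n
  swap
  · have hl0 := lh_root hinj
    have hμ1 : μ = 1 := by
      by_contra hne
      have hx : μ - 1 ≠ 0 := sub_ne_zero.mpr hne
      have e1 := liou_fin hx S
      have e2 := lh_sub_one μ
      have e3 : g ≤ ∑ v ∈ S, -Real.log (fv v (μ - 1)) := by
        rw [hg]
        refine Finset.sum_le_sum fun v hv => ?_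
        have := Real.log_le_log ((fv v).pos hx) (hfμ v hv)
        rw [Real.log_exp] at this
        linarith
      rw [hl0, ← hd] at e2
      have e5 : d * Real.log 2 ≤ d * 1 := mul_le_mul_of_nonneg_left (by linarith) (by linarith)
      linarith
    refine ⟨hμ1, ?_⟩
    by_contra hne
    have hx : κ - 1 ≠ 0 := sub_ne_zero.mpr hne
    have e1 := liou_fin hx S
    have e2 := lh_sub_one κ
    have e3 : Y * g ≤ ∑ v ∈ S, -Real.log (fv v (κ - 1)) := by
      rw [hg, Finset.mul_sum]
      refine Finset.sum_le_sum fun v hv => ?_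
      have h5 := hfκ v hv
      rw [hμ1, one_pow, one_mul] at h5
      have := Real.log_le_log ((fv v).pos hx) h5
      rw [Real.log_exp] at this
      linarith
    rw [← hd] at e2
    have e4 : 20000 * d * ν ≤ Y * g := by
      have e5 : g * (20000 * d * ν) ≤ g * (Y * g) := by
        have e6 : g * (20000 * d * ν) ≤ h * (20000 * d * ν) :=
          mul_le_mul_of_nonneg_right hgh (by positivity)
        linarith
      exact le_of_mul_le_mul_left e5 hg0
    have e9 : d * Real.log 2 ≤ d * 1 := mul_le_mul_of_nonneg_left (by linarith) (by linarith)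
    linarith
  · exfalso
    obtain ⟨R₂, S₂, N, hN, b1, b2, b3, b4, b5, b6⟩ := params hg1 hgh hgν
    have hN1 : (1 : ℝ) ≤ N := by exact_mod_cast hN
    have hRE : R₂ ≤ E := by
      have : g * R₂ ≤ g * E := by linarith
      exact_mod_cast le_of_mul_le_mul_left this hg0
    have hNY : N * 8 ≤ Y := by
      have e1 : g ^ 2 * (8 * N) ≤ g ^ 2 * Y := by linarith
      have e2 := le_of_mul_le_mul_left e1 (by positivity)
      have e3 : ((N * 8 : ℕ) : ℝ) ≤ Y := by push_cast; linarith
      exact_mod_cast e3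
    obtain ⟨r, s, hr, hs, hdet⟩ := h1 N 8 R₂ S₂ E μ κ⁻¹ hμ hinj (inv_ne_zero hκ) hRE b3
    obtain ⟨k, hk⟩ : ∃ k : Fin (N * 8) → ℕ, k = fun c => ((finProdFinEquiv.symm c).1 : ℕ) :=
      ⟨_, rfl⟩
    obtain ⟨l, hl⟩ : ∃ l : Fin (N * 8) → ℕ, l = fun c => ((finProdFinEquiv.symm c).2 : ℕ) :=
      ⟨_, rfl⟩
    have hkN : ∀ c, k c < N := fun c => by rw [hk]; exact (finProdFinEquiv.symm c).1.2
    have hl8 : ∀ c, l c < 8 := fun c => by rw [hl]; exact (finProdFinEquiv.symm c).2.2
    rw [← hk, ← hl] at hdet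
    have hr7 : ∀ a, r a ≤ R₂ + 7 := fun a => by have := hr a; omega
    have hs' : ∀ a, s a ≤ S₂ := fun a => (hs a).le
    -- the binomial coefficients
    obtain ⟨u, hu⟩ : ∃ u, u = Real.exp (g / (20000 * d)) := ⟨_, rfl⟩
    have hu1 : 2 < u := by
      have e1 : (1 : ℝ) ≤ g / (20000 * d) := by
        rw [le_div_iff₀ (by linarith)]; linarith
      have e2 := Real.exp_one_gt_d9
      have e3 := Real.exp_le_exp.mpr e1
      rw [hu]
      linarith
    rw [← hu] at a2
    obtain ⟨P, hP⟩ : ∃ P : ℕ, P = ⌈u⌉₊ := ⟨_, rfl⟩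
    have hPu : u ≤ P := by rw [hP]; exact Nat.le_ceil u
    have hPu2 : (P : ℝ) < u + 1 := by rw [hP]; exact Nat.ceil_lt_add_one (by linarith)
    have hP3 : 3 ≤ P := by
      have : (2 : ℝ) < P := by linarith
      have : 2 < P := by exact_mod_cast this
      omega
    have hSE : 8 * (S₂ * E) ≤ u * N := by
      have e1 : g * (8 * (S₂ * E)) ≤ g * (u * N) := by
        have e2 : (S₂ : ℝ) * (E * g) ≤ S₂ * (u * ν) :=
          mul_le_mul_of_nonneg_left a2 (by positivity)
        have e3 : 8 * ((S₂ : ℝ) * ν) ≤ g * N := by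
          have : 0 ≤ ((R₂ : ℝ) + 7) * h := by positivity
          linarith
        have e4 := mul_le_mul_of_nonneg_left e3 (show 0 ≤ u by linarith)
        linarith
      exact le_of_mul_le_mul_left e1 hg0
    have hB : ∀ i j, ((Nat.choose (r i + s i * E) (k j) : ℕ) : ℝ) ≤ ((P ^ N : ℕ) : ℝ) := by
      intro i j
      have e1 : (r i + s i * E) * 3 ≤ N * P := by
        have e2 : ((r i + s i * E : ℕ) : ℝ) ≤ (R₂ + 7) + S₂ * E := by
          push_cast
          have e3 : ((r i : ℕ) : ℝ) ≤ R₂ + 7 := by exact_mod_cast hr7 i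
          have e4 : (s i : ℝ) * E ≤ S₂ * E :=
            mul_le_mul_of_nonneg_right (by exact_mod_cast hs' i) (by positivity)
          linarith
        have e5 : (((r i + s i * E) * 3 : ℕ) : ℝ) ≤ ((N * P : ℕ) : ℝ) := by
          rw [Nat.cast_mul]
          push_cast at e2 ⊢
          have e6 : (N : ℝ) * u ≤ N * P := mul_le_mul_of_nonneg_left hPu (by positivity)
          have e7 : (N : ℝ) * 1 ≤ N * u := mul_le_mul_of_nonneg_left (by linarith) (by positivity)
          linarith
        exact_mod_cast e5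
      have e2 := Pool.Agent.H374R2.T.TaskE.choose_bound (le_refl 3) hP3 e1 (hkN j).le
      exact_mod_cast e2
    have hPpos : (0 : ℝ) < ((P ^ N : ℕ) : ℝ) := by
      have : 0 < P := by omega
      positivity
    have hlogP : Real.log ((P ^ N : ℕ) : ℝ) ≤ N * (g / (10000 * d)) := by
      push_cast
      rw [Real.log_pow]
      apply mul_le_mul_of_nonneg_left _ (by positivity)
      have e1 : Real.log P ≤ Real.log (2 * u) := by
        apply Real.log_le_log
        · have : 0 < P := by omega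
          exact_mod_cast this
        · linarith
      rw [Real.log_mul (by norm_num) (by linarith), hu, Real.log_exp] at e1
      have e2 : g / (10000 * d) = g / (20000 * d) + g / (20000 * d) := by
        field_simp; norm_num
      have e3 : (1 : ℝ) ≤ g / (20000 * d) := by
        rw [le_div_iff₀ (by linarith)]; linarith
      rw [e2]
      linarith
    -- the global inequality
    have hglob := global_bound hdet S (fun v => gv v * (24 * (N : ℝ) ^ 2 - 4 * N))
      (fun _ => 8 * N * (N + 2) + 8 * N * (N * (g / (10000 * d))))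
      (8 * N * (7 * ((R₂ + 7 : ℕ) : ℝ))) (8 * N * (7 * (S₂ : ℝ)))
      (x := μ) (y := κ⁻¹)
      (by
        intro w
        have e1 := det_inf_bound w hN hr7 hs' hl8 hPpos hB hdet
        have e2 := mul_le_mul_of_nonneg_left hlogP (show (0 : ℝ) ≤ 8 * N by positivity)
        linarith)
      (fun v _ => det_fin_bound v hr7 hs' hl8 hdet)
      (by
        intro v hv
        have hgvv := hgv v hv
        have e1 := h2 (fv v) (fv_na v) (N * 8) N Y E μ κ⁻¹ (Real.exp (-gv v)) (Real.exp_pos _)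
          (by rw [Real.exp_lt_one_iff]; linarith) (hfμ v hv)
          (by
            rw [inv_inv]
            have e2 := hfκ v hv
            have e3 : Real.exp (-gv v) ^ Y = Real.exp (-(Y * gv v)) := by
              rw [← Real.exp_nat_mul]; congr 1; ring
            rw [e3]; exact e2) hNY (inv_ne_zero hκ) r s k l hkN
        have e2 := Real.log_le_log ((fv v).pos hdet) e1
        rw [Real.log_pow, Real.log_exp, expn N hN] at e2
        have e3 := posLog_nonneg' (fv v μ)
        have e4 := posLog_nonneg' (fv v κ⁻¹)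
        have e5 : 0 ≤ (8 * N * (7 * ((R₂ + 7 : ℕ) : ℝ))) * Real.posLog (fv v μ) := by positivity
        have e6 : 0 ≤ (8 * N * (7 * (S₂ : ℝ))) * Real.posLog (fv v κ⁻¹) := by positivity
        linarith)
    rw [← Finset.sum_mul, ← hg, ← Finset.sum_mul, sum_mult, ← hd, logHeight₁_inv] at hglob
    push_cast at hglob
    have hN0 : (0 : ℝ) ≤ N := by linarith
    have hNN : (N : ℝ) ≤ (N : ℝ) ^ 2 := by
      rw [pow_two]
      exact le_mul_of_one_le_left hN0 hN1
    have e1 : (8 * N * (7 * ((R₂ : ℝ) + 7))) * logHeight₁ μ ≤ (8 * N * (7 * ((R₂ : ℝ) + 7))) * h :=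
      mul_le_mul_of_nonneg_left hhμ (by positivity)
    have e2 : (8 * N * (7 * (S₂ : ℝ))) * logHeight₁ κ ≤ (8 * N * (7 * (S₂ : ℝ))) * ν :=
      mul_le_mul_of_nonneg_left hhκ (by positivity)
    have e3 : (8 * N * (7 * ((R₂ : ℝ) + 7))) * h + (8 * N * (7 * (S₂ : ℝ))) * ν ≤
        7 * (g * (N : ℝ) ^ 2) := by
      have := mul_le_mul_of_nonneg_left b4 (show (0 : ℝ) ≤ 7 * N by positivity)
      linarith
    have e4 : d * (8 * N * (N + 2) + 8 * N * (N * (g / (10000 * d)))) ≤
        1 / 100 * (g * (N : ℝ) ^ 2) := by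
      have e5 : d * (8 * N * (N * (g / (10000 * d)))) = 8 / 10000 * (g * (N : ℝ) ^ 2) := by
        field_simp
      have e6 : d * (8 * N * (N + 2)) ≤ 24 / 20000 * (g * (N : ℝ) ^ 2) := by
        have e7 : (N : ℝ) * (N + 2) ≤ 3 * (N : ℝ) ^ 2 := by linarith
        have e8 : d * (8 * (N * (N + 2))) ≤ d * (8 * (3 * (N : ℝ) ^ 2)) :=
          mul_le_mul_of_nonneg_left (by linarith) (by linarith)
        have e9 : 20000 * d * (N : ℝ) ^ 2 ≤ g * (N : ℝ) ^ 2 :=
          mul_le_mul_of_nonneg_right hc (by positivity)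
        linarith
      rw [mul_add, e5]
      have : 0 ≤ g * (N : ℝ) ^ 2 := by positivity
      linarith
    have e5 : g * (N : ℝ) ≤ g * (N : ℝ) ^ 2 := by
      exact mul_le_mul_of_nonneg_left hNN hg0.le
    have e6 : 0 < g * (N : ℝ) ^ 2 := by positivity
    linarith

/-- **two numbers close to one at an infinite place** -/
theorem core_inf (K : Type) [Field K] [NumberField K] (h1 : DetEx K) (h3 : DetInf K) :
    CoreInf K := by
  classical
  obtain ⟨d, hd⟩ : ∃ d : ℝ, d = (Module.finrank ℚ K : ℝ) := ⟨_, rfl⟩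
  have hd1 : 1 ≤ d := by
    rw [hd]
    exact_mod_cast Nat.succ_le_of_lt (Module.finrank_pos (R := ℚ) (M := K))
  refine ⟨20000 * d, by linarith, ?_⟩
  intro w0 g h ν E Y μ κ hμ hκ hc hgh hgν hhμ hhκ hfμ hfκ a1 a2 a3
  have hlog2 := Real.log_two_lt_d9
  have hg1 : 1 ≤ g := by linarith
  have hg0 : 0 < g := by linarith
  have hh0 : 0 < h := by linarith
  have hν0 : 0 < ν := by linarith
  have hhν : 0 < h * ν := by positivity
  have hdν : ν ≤ d * ν := le_mul_of_one_le_left hν0.le hd1
  have hdhν : h * ν ≤ d * (h * ν) := le_mul_of_one_le_left hhν.le hd1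
  have hm1 : (1 : ℝ) ≤ w0.mult := by
    exact_mod_cast Nat.succ_le_of_lt (InfinitePlace.mult_pos (w := w0))
  by_cases hinj : Function.Injective fun n : ℕ => μ ^ n
  swap
  · have hl0 := lh_root hinj
    have hμ1 : μ = 1 := by
      by_contra hne
      have hx : μ - 1 ≠ 0 := sub_ne_zero.mpr hne
      have e1 := liou_inf hx w0
      have e2 := lh_sub_one μ
      have e3 := Real.log_le_log (w0.1.pos hx) hfμ
      rw [Real.log_exp] at e3
      have e4 : w0.1 (μ - 1) = w0 (μ - 1) := rfl
      rw [e4] at e3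
      rw [hl0, ← hd] at e2
      have e5 : d * Real.log 2 ≤ d * 1 := mul_le_mul_of_nonneg_left (by linarith) (by linarith)
      have e6 : 1 * g ≤ w0.mult * g := mul_le_mul_of_nonneg_right hm1 hg0.le
      have e7 := mul_le_mul_of_nonneg_left e3 (show (0 : ℝ) ≤ w0.mult by linarith)
      linarith
    refine ⟨hμ1, ?_⟩
    by_contra hne
    have hx : κ - 1 ≠ 0 := sub_ne_zero.mpr hne
    have e1 := liou_inf hx w0
    have e2 := lh_sub_one κ
    rw [hμ1, one_pow, one_mul] at hfκ
    have e3 := Real.log_le_log (w0.1.pos hx) hfκ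
    rw [Real.log_exp] at e3
    have e7 : w0.1 (κ - 1) = w0 (κ - 1) := rfl
    rw [e7] at e3
    rw [← hd] at e2
    have e4 : 20000 * d * ν ≤ Y * g := by
      have e5 : g * (20000 * d * ν) ≤ g * (Y * g) := by
        have e6 : g * (20000 * d * ν) ≤ h * (20000 * d * ν) :=
          mul_le_mul_of_nonneg_right hgh (by positivity)
        linarith
      exact le_of_mul_le_mul_left e5 hg0
    have e8 : 0 ≤ (Y : ℝ) * g := by positivity
    have e9 : d * Real.log 2 ≤ d * 1 := mul_le_mul_of_nonneg_left (by linarith) (by linarith)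
    have e10 : 1 * (Y * g) ≤ w0.mult * (Y * g) := mul_le_mul_of_nonneg_right hm1 e8
    have e11 := mul_le_mul_of_nonneg_left e3 (show (0 : ℝ) ≤ w0.mult by linarith)
    linarith
  · exfalso
    obtain ⟨R₂, S₂, N, hN, b1, b2, b3, b4, b5, b6⟩ := params hg1 hgh hgν
    have hN1 : (1 : ℝ) ≤ N := by exact_mod_cast hN
    have hRE' : (R₂ : ℝ) ≤ E := by
      have : g * R₂ ≤ g * E := by linarith
      exact le_of_mul_le_mul_left this hg0
    have hRE : R₂ ≤ E := by exact_mod_cast hRE'
    have hNY : N * 8 ≤ Y := by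
      have e1 : g ^ 2 * (8 * N) ≤ g ^ 2 * Y := by linarith
      have e2 := le_of_mul_le_mul_left e1 (by positivity)
      have e3 : ((N * 8 : ℕ) : ℝ) ≤ Y := by push_cast; linarith
      exact_mod_cast e3
    obtain ⟨r, s, hr, hs, hdet⟩ := h1 N 8 R₂ S₂ E μ κ⁻¹ hμ hinj (inv_ne_zero hκ) hRE b3
    obtain ⟨k, hk⟩ : ∃ k : Fin (N * 8) → ℕ, k = fun c => ((finProdFinEquiv.symm c).1 : ℕ) :=
      ⟨_, rfl⟩
    obtain ⟨l, hl⟩ : ∃ l : Fin (N * 8) → ℕ, l = fun c => ((finProdFinEquiv.symm c).2 : ℕ) :=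
      ⟨_, rfl⟩
    have hkN : ∀ c, k c < N := fun c => by rw [hk]; exact (finProdFinEquiv.symm c).1.2
    have hl8 : ∀ c, l c < 8 := fun c => by rw [hl]; exact (finProdFinEquiv.symm c).2.2
    rw [← hk, ← hl] at hdet
    have hr7 : ∀ a, r a ≤ R₂ + 7 := fun a => by have := hr a; omega
    have hs' : ∀ a, s a ≤ S₂ := fun a => (hs a).le
    -- the size of the arguments
    obtain ⟨u, hu⟩ : ∃ u, u = Real.exp (g / (20000 * d)) := ⟨_, rfl⟩
    rw [← hu] at a2
    have hgd : g / (20000 * d) ≤ g / 20000 := by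
      apply div_le_div_of_nonneg_left hg0.le (by norm_num) (by linarith)
    obtain ⟨Z, hZ⟩ : ∃ Z : ℝ, Z = (R₂ + 7) + S₂ * E := ⟨_, rfl⟩
    have hu0 : 0 < u := by rw [hu]; exact Real.exp_pos _
    have hu1 : 1 ≤ u := by
      rw [hu]
      exact Real.one_le_exp (by positivity)
    have hZu : Z ≤ 149 * u := by
      have e1 : (E : ℝ) ≤ u := by
        have : (E : ℝ) * 1 ≤ E * h := mul_le_mul_of_nonneg_left (by linarith) (by positivity)
        linarith
      have e2 : (S₂ : ℝ) ≤ 141 * h := by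
        have : (1 : ℝ) * S₂ ≤ g * S₂ := mul_le_mul_of_nonneg_right hg1 (by positivity)
        linarith
      have e3 : (S₂ : ℝ) * E ≤ 141 * h * E := mul_le_mul_of_nonneg_right e2 (by positivity)
      rw [hZ]
      linarith
    have hZ1 : 1 ≤ Z := by
      rw [hZ]
      have : (0 : ℝ) ≤ R₂ := by positivity
      have : (0 : ℝ) ≤ S₂ * E := by positivity
      linarith
    have hz : ∀ a, ((r a + s a * E : ℕ) : ℝ) ≤ Z := by
      intro a
      rw [hZ]
      push_cast
      have e3 : ((r a : ℕ) : ℝ) ≤ R₂ + 7 := by exact_mod_cast hr7 a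
      have e4 : (s a : ℝ) * E ≤ S₂ * E :=
        mul_le_mul_of_nonneg_right (by exact_mod_cast hs' a) (by positivity)
      linarith
    have hE0 : 1 ≤ E := by
      by_contra hcon
      have : E = 0 := by omega
      rw [this] at a1
      push_cast at a1
      linarith
    have hsZ : ∀ a, (s a : ℝ) ≤ Z := by
      intro a
      have e1 : (s a : ℝ) ≤ S₂ := by exact_mod_cast hs' a
      have e2 : (S₂ : ℝ) * 1 ≤ S₂ * E :=
        mul_le_mul_of_nonneg_left (by exact_mod_cast hE0) (by positivity)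
      have e3 : (0 : ℝ) ≤ R₂ := by positivity
      rw [hZ]
      linarith
    have h10 : (9536 : ℝ) ≤ Real.exp 10 := by
      have e1 := Real.exp_one_gt_d9
      have e2 : Real.exp 10 = Real.exp 1 ^ 10 := by
        rw [← Real.exp_nat_mul]; norm_num
      rw [e2]
      calc (9536 : ℝ) ≤ 2.7 ^ 10 := by norm_num
        _ ≤ _ := pow_le_pow_left₀ (by norm_num) (by linarith) _
    have hexp : 8 * ((8 : ℕ) : ℝ) * Z ≤ Real.exp (g / 4) := by
      calc 8 * ((8 : ℕ) : ℝ) * Z ≤ 9536 * u := by push_cast; linarith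
        _ ≤ Real.exp 10 * u := mul_le_mul_of_nonneg_right h10 hu0.le
        _ = Real.exp (10 + g / (20000 * d)) := by rw [hu, Real.exp_add]
        _ ≤ _ := by
          apply Real.exp_le_exp.mpr
          linarith
    have hlogZ : Real.log (8 * Z) ≤ 10 + g / (20000 * d) := by
      rw [← Real.log_exp (10 + g / (20000 * d))]
      apply Real.log_le_log (by linarith)
      rw [Real.exp_add, ← hu]
      calc 8 * Z ≤ 9536 * u := by linarith
        _ ≤ _ := mul_le_mul_of_nonneg_right h10 hu0.le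
    have hZN : (0 : ℝ) < Z ^ N := by positivity
    have hB : ∀ i j, ((Nat.choose (r i + s i * E) (k j) : ℕ) : ℝ) ≤ Z ^ N := by
      intro i j
      calc ((Nat.choose (r i + s i * E) (k j) : ℕ) : ℝ)
          ≤ (((r i + s i * E) ^ (k j) : ℕ) : ℝ) := by
            exact_mod_cast Nat.choose_le_pow _ _
        _ = ((r i + s i * E : ℕ) : ℝ) ^ (k j) := by push_cast; ring
        _ ≤ Z ^ (k j) := pow_le_pow_left₀ (by positivity) (hz i) _
        _ ≤ Z ^ N := pow_le_pow_right₀ hZ1 (hkN j).le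
    have hlogB : Real.log (Z ^ N) ≤ N * (10 + g / (20000 * d)) := by
      rw [Real.log_pow]
      apply mul_le_mul_of_nonneg_left _ (by positivity)
      refine le_trans ?_ hlogZ
      exact Real.log_le_log (by linarith) (by linarith)
    -- the global inequality
    obtain ⟨A, hA⟩ : ∃ A : ℝ, A = 8 * N * (N + 2) + 8 * N * (N * (10 + g / (20000 * d))) :=
      ⟨_, rfl⟩
    have hglob := global_bound hdet ∅ (fun _ => 0)
      (fun w => A - if w = w0 then g / 2 * (24 * (N : ℝ) ^ 2 - 4 * N) else 0)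
      (8 * N * (7 * ((R₂ + 7 : ℕ) : ℝ))) (8 * N * (7 * (S₂ : ℝ)))
      (x := μ) (y := κ⁻¹)
      (by
        intro w
        by_cases hw : w = w0
        · subst hw
          rw [if_pos rfl]
          have e1 := h3 w.1 (fun m => w_nat w m) (N * 8) N 8 Y E μ κ⁻¹ g Z (by linarith) hZ1
            hexp hfμ (by rw [inv_inv]; exact hfκ) hNY (by omega) (inv_ne_zero hκ) r s k l hkN
            hl8 hz hsZ
          have e2 := Real.log_le_log (w.1.pos hdet) e1
          have hf : (0 : ℝ) < ((N * 8).factorial : ℕ) := by exact_mod_cast Nat.factorial_pos _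
          have hZ8 : (0 : ℝ) < (8 * Z) ^ (N * 8 * N) := by positivity
          rw [Real.log_mul (mul_pos hf hZ8).ne' (Real.exp_pos _).ne', Real.log_mul hf.ne' hZ8.ne',
            Real.log_exp, Real.log_pow, expn N hN] at e2
          have e3 := log_fact N hN
          have e4 := posLog_nonneg' (w μ)
          have e5 := posLog_nonneg' (w κ⁻¹)
          have e6 : 0 ≤ (8 * N * (7 * ((R₂ + 7 : ℕ) : ℝ))) * Real.posLog (w μ) := by positivity
          have e7 : 0 ≤ (8 * N * (7 * (S₂ : ℝ))) * Real.posLog (w κ⁻¹) := by positivity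
          have e8 := mul_le_mul_of_nonneg_left hlogZ
            (show (0 : ℝ) ≤ ((N * 8 * N : ℕ) : ℝ) by positivity)
          have e9 : w.1 (Mx μ κ⁻¹ E r s k l).det = w (Mx μ κ⁻¹ E r s k l).det := rfl
          rw [e9] at e2
          rw [hA]
          push_cast at e2 e8 e6 ⊢
          linarith
        · rw [if_neg hw, sub_zero]
          have e1 := det_inf_bound w hN hr7 hs' hl8 hZN hB hdet
          have e2 := mul_le_mul_of_nonneg_left hlogB (show (0 : ℝ) ≤ 8 * N by positivity)
          rw [hA]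
          linarith)
      (fun v _ => det_fin_bound v hr7 hs' hl8 hdet)
      (by intro v hv; simp at hv)
    have hsumA : ∑ w : InfinitePlace K, (w.mult : ℝ) *
        (A - if w = w0 then g / 2 * (24 * (N : ℝ) ^ 2 - 4 * N) else 0) =
        d * A - w0.mult * (g / 2 * (24 * (N : ℝ) ^ 2 - 4 * N)) := by
      simp only [mul_sub, Finset.sum_sub_distrib, ← Finset.sum_mul, sum_mult, mul_ite, mul_zero,
        Finset.sum_ite_eq', Finset.mem_univ, if_true]
      rw [← hd]
    rw [hsumA, Finset.sum_const_zero, logHeight₁_inv] at hglob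
    push_cast at hglob
    have hN0 : (0 : ℝ) ≤ N := by linarith
    have hNN : (N : ℝ) ≤ (N : ℝ) ^ 2 := by
      rw [pow_two]
      exact le_mul_of_one_le_left hN0 hN1
    have e0 : g / 2 * (24 * (N : ℝ) ^ 2 - 4 * N) ≤
        w0.mult * (g / 2 * (24 * (N : ℝ) ^ 2 - 4 * N)) := by
      have : 0 ≤ g / 2 * (24 * (N : ℝ) ^ 2 - 4 * N) := by
        apply mul_nonneg (by linarith)
        linarith
      have := mul_le_mul_of_nonneg_right hm1 this
      linarith
    have e1 : (8 * N * (7 * ((R₂ : ℝ) + 7))) * logHeight₁ μ ≤ (8 * N * (7 * ((R₂ : ℝ) + 7))) * h :=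
      mul_le_mul_of_nonneg_left hhμ (by positivity)
    have e2 : (8 * N * (7 * (S₂ : ℝ))) * logHeight₁ κ ≤ (8 * N * (7 * (S₂ : ℝ))) * ν :=
      mul_le_mul_of_nonneg_left hhκ (by positivity)
    have e3 : (8 * N * (7 * ((R₂ : ℝ) + 7))) * h + (8 * N * (7 * (S₂ : ℝ))) * ν ≤
        7 * (g * (N : ℝ) ^ 2) := by
      have := mul_le_mul_of_nonneg_left b4 (show (0 : ℝ) ≤ 7 * N by positivity)
      linarith
    have e4 : d * A ≤ 1 / 100 * (g * (N : ℝ) ^ 2) := by
      have e5 : d * (8 * N * (N * (10 + g / (20000 * d)))) =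
          80 * (d * (N : ℝ) ^ 2) + 8 / 20000 * (g * (N : ℝ) ^ 2) := by
        field_simp
        ring
      have e9 : 20000 * d * (N : ℝ) ^ 2 ≤ g * (N : ℝ) ^ 2 :=
        mul_le_mul_of_nonneg_right hc (by positivity)
      have e6 : d * (8 * N * (N + 2)) ≤ 24 / 20000 * (g * (N : ℝ) ^ 2) := by
        have e7 : (N : ℝ) * (N + 2) ≤ 3 * (N : ℝ) ^ 2 := by linarith
        have e8 : d * (8 * (N * (N + 2))) ≤ d * (8 * (3 * (N : ℝ) ^ 2)) :=
          mul_le_mul_of_nonneg_left (by linarith) (by linarith)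
        linarith
      rw [hA, mul_add, e5]
      have : 0 ≤ g * (N : ℝ) ^ 2 := by positivity
      linarith
    have e5 : g * (N : ℝ) ≤ g * (N : ℝ) ^ 2 := mul_le_mul_of_nonneg_left hNN hg0.le
    have e6 : 0 < g * (N : ℝ) ^ 2 := by positivity
    linarith

end Pool.Agent.Y884.AK
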