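import Pool.Agent.Y884.AK.MidF

/-!
Prescribed primes of the second kind, heights between `M log X` and `(log X) ^ 3` (helper884).
-/

set_option autoImplicit false

namespace Pool.Agent.Y884.AK

open Finset NumberField IsDedekindDomain Height Pool.Agent.H691R3 Pool.Agent.TH876.Loc
open Pool.Agent.TH876.KR (side aw log_Nv_pos' Near Sc Light InP rho rho_gt scales df_eq_zero
  side_sub log_nn df_int mem_side)
open Pool.Agent.Y728.AK (GB SunFin SunInf MidInP)

/-- **prescribed primes of the second kind, middle heights** -/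
theorem mid_inP (K : Type) [Field K] [NumberField K] {h0 : ℕ} {C0 : ℝ} {g0 : Pr K → 𝓞 K}
    (G : GB K h0 C0 g0) (hf : SunFin K h0 g0) (hi : SunInf K h0 g0) : MidInP K := by
  classical
  intro k hk9
  have hk1 : 1 ≤ k := by omega
  have hk0 : (9 : ℝ) ≤ k := by exact_mod_cast hk9
  have hkp : (0 : ℝ) < k := by linarith
  obtain ⟨Mh, Dc, Xc, hMh1, hDc, hXc, hone⟩ := one_set G hf hi hk1
  obtain ⟨Da, hDa, Xa, hXa, hca⟩ := Pool.Agent.Y728.cheapK K hk9 (η := 1) one_pos
  obtain ⟨Db, hDb, Xb, hXb, hcb⟩ := Pool.Agent.Y728.cheapK K (k := 2 * k) (by omega) (η := 1) one_pos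
  obtain ⟨X4, hX4, hsets⟩ := Pool.Agent.Y728.card_setsM K hk9
  refine ⟨Mh, Da + Db + 27 * Dc, max (max Xc Xa) (max Xb X4), hMh1, by positivity,
    hXc.trans ((le_max_left _ _).trans (le_max_left _ _)), ?_⟩
  intro X hX M hM1 hMX F hF
  have hXXc : Xc ≤ X := ((le_max_left _ _).trans (le_max_left _ _)).trans hX
  have hXXa : Xa ≤ X := ((le_max_right _ _).trans (le_max_left _ _)).trans hX
  have hXXb : Xb ≤ X := ((le_max_left _ _).trans (le_max_right _ _)).trans hX
  have hXX4 : X4 ≤ X := ((le_max_right _ _).trans (le_max_right _ _)).trans hX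
  have hX16 : 16 ≤ X := hXc.trans hXXc
  have hX1 : 1 ≤ X := by linarith
  have hX0 : 0 < X := by linarith
  obtain ⟨L, hL⟩ : ∃ L, L = Real.log X := ⟨_, rfl⟩
  have hL1 : 1 ≤ L := by
    have := Pool.Agent.TH876.Loc.log_facts hX16
    have := Real.exp_one_gt_d9
    rw [hL]
    linarith
  have hL0 : 0 < L := by linarith
  have hM0 : 0 < M := by linarith
  have hMexp : ∀ a : ℝ, 0 ≤ a → M ≤ X ^ (2 / 3 + a / (k : ℝ)) := by
    intro a ha
    refine hMX.trans (Real.rpow_le_rpow_of_exponent_le hX1 ?_)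
    have h1 : 0 ≤ a / (k : ℝ) := by positivity
    have h2 : 0 ≤ 1 / (k : ℝ) := by positivity
    linarith
  obtain ⟨Q, hQ⟩ : ∃ Q, Q = M * X ^ (10 / (k : ℝ)) := ⟨_, rfl⟩
  have hQ0 : 0 < Q := by rw [hQ]; positivity
  have hexp : ∀ a : ℝ, a ≤ 10 → M * X ^ (a / (k : ℝ)) ≤ Q := by
    intro a ha
    rw [hQ]
    refine mul_le_mul_of_nonneg_left (Real.rpow_le_rpow_of_exponent_le hX1 ?_) hM0.le
    exact div_le_div_of_nonneg_right ha hkp.le
  rw [← hQ]
  rcases F.eq_empty_or_nonempty with hFe | ⟨x0, hx0⟩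
  · rw [hFe, Finset.card_empty, Nat.cast_zero]
    positivity
  have hhgt : ∀ x ∈ F, Real.log X ≤ hgt x := by
    intro x hx
    have h1 := (hF x hx).2.2.1
    have h2 : 1 * Real.log X ≤ Mh * Real.log X :=
      mul_le_mul_of_nonneg_right hMh1 (by rw [← hL]; exact hL0.le)
    linarith
  -- choice of the data
  have hex : ∀ x : K, ∃ t : Finset (Pr K) × (Fin 3 × Fin 3 × Fin 3) × Pr K, x ∈ F →
      nn t.1 ≤ M ∧ t.2.1.1 ≠ t.2.1.2.1 ∧ t.2.1.2.1 ≠ t.2.1.2.2 ∧ t.2.1.1 ≠ t.2.1.2.2 ∧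
      InP k t.1 t.2.1.1 t.2.1.2.1 t.2.1.2.2 x t.2.2 := by
    obtain ⟨_, _, _, _, _, _, _, _, p0, _⟩ := hF x0 hx0
    intro x
    by_cases hx : x ∈ F
    · obtain ⟨_, _, _, _, S, A, B, E, p, h1, h2, h3, h4, h5⟩ := hF x hx
      exact ⟨(S, (A, B, E), p), fun _ => ⟨h1, h2, h3, h4, h5⟩⟩
    · exact ⟨(∅, (0, 1, 2), p0), fun h => absurd h hx⟩
  choose t ht using hex
  obtain ⟨Fa, hFa⟩ : ∃ Fa, Fa = F.filter fun x => k * Real.log (Nv (t x).2.2) ≤ L := ⟨_, rfl⟩
  obtain ⟨Fb, hFb⟩ : ∃ Fb, Fb = F.filter fun x =>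
    2 * k * df (Sum.inr (t x).2.2 : Pl K) (t x).2.1.2.1 x ≤ hgt x := ⟨_, rfl⟩
  obtain ⟨Fc, hFc⟩ : ∃ Fc, Fc = F.filter fun x => L ≤ k * Real.log (Nv (t x).2.2) ∧
    hgt x ≤ 2 * k * df (Sum.inr (t x).2.2 : Pl K) (t x).2.1.2.1 x := ⟨_, rfl⟩
  have hcov : F ⊆ Fa ∪ (Fb ∪ Fc) := by
    intro x hx
    rcases le_total (k * Real.log (Nv (t x).2.2)) L with h | h
    · refine Finset.mem_union_left _ ?_
      rw [hFa]
      exact Finset.mem_filter.2 ⟨hx, h⟩
    · refine Finset.mem_union_right _ ?_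
      rcases le_total (2 * k * df (Sum.inr (t x).2.2 : Pl K) (t x).2.1.2.1 x) (hgt x) with h' | h'
      · refine Finset.mem_union_left _ ?_
        rw [hFb]
        exact Finset.mem_filter.2 ⟨hx, h'⟩
      · refine Finset.mem_union_right _ ?_
        rw [hFc]
        exact Finset.mem_filter.2 ⟨hx, h, h'⟩
  -- small large prime
  have da : (Fa.card : ℝ) ≤ Da * Q := by
    have hMM : M * X ^ (1 / (k : ℝ)) ≤ X ^ (2 / 3 + 1 / (k : ℝ)) := by
      calc M * X ^ (1 / (k : ℝ)) ≤ X ^ (2 / 3 - 1 / (k : ℝ)) * X ^ (1 / (k : ℝ)) :=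
            mul_le_mul_of_nonneg_right hMX (by positivity)
        _ = X ^ (2 / 3 : ℝ) := by
            rw [← Real.rpow_add hX0]
            congr 1
            ring
        _ ≤ _ := by
            refine Real.rpow_le_rpow_of_exponent_le hX1 ?_
            have : 0 < 1 / (k : ℝ) := by positivity
            linarith
    have hM1' : 1 ≤ M * X ^ (1 / (k : ℝ)) := by
      have : 1 ≤ X ^ (1 / (k : ℝ)) := Real.one_le_rpow hX1 (by positivity)
      have := mul_le_mul hM1 this (by norm_num) hM0.le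
      linarith
    have h1 := hca X hXXa (M * X ^ (1 / (k : ℝ))) hM1' hMM Fa (fun x hx => by
      rw [hFa, mem_filter] at hx
      obtain ⟨hxF, hsm⟩ := hx
      obtain ⟨t1, t2, t3, t4, t5⟩ := ht x hxF
      refine ⟨(hF x hxF).1, (hF x hxF).2.1, insert (t x).2.2 (t x).1, ?_, Or.inl
        ⟨hhgt x hxF, light_insert hk1 t2 t3 t4 (hF x hxF).1 t5⟩⟩
      have h2 : nn (insert (t x).2.2 (t x).1) = Nv (t x).2.2 * nn (t x).1 :=
        Pool.Agent.TH876.Loc.nn_insert t5.pS
      rw [h2, mul_comm]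
      refine mul_le_mul t1 ?_ (Nv_pos _).le hM0.le
      have h3 : Real.log (Nv (t x).2.2) ≤ L / k := by
        rw [le_div_iff₀ hkp]; linarith
      have h4 : X ^ (1 / (k : ℝ)) = Real.exp (L / k) := by
        rw [Real.rpow_def_of_pos hX0, ← hL]
        congr 1
        ring
      rw [h4, ← Real.exp_log (Nv_pos (t x).2.2)]
      exact Real.exp_le_exp.mpr h3)
    refine h1.trans ?_
    have e1 : M * X ^ (1 / (k : ℝ)) * X ^ (5 / (k : ℝ)) = M * X ^ (6 / (k : ℝ)) := by
      rw [mul_assoc, ← Real.rpow_add hX0]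
      congr 2
      ring
    rw [e1]
    exact mul_le_mul_of_nonneg_left (hexp 6 (by norm_num)) hDa.le
  -- small exponent
  have db : (Fb.card : ℝ) ≤ Db * Q := by
    have hMM : M ≤ X ^ (2 / 3 + 1 / ((2 * k : ℕ) : ℝ)) := by
      have h1 := hMexp (1 / 2) (by norm_num)
      have h2 : 1 / 2 / (k : ℝ) = 1 / ((2 * k : ℕ) : ℝ) := by push_cast; field_simp
      rwa [h2] at h1
    have h1 := hcb X hXXb M hM1 hMM Fb (fun x hx => by
      rw [hFb, mem_filter] at hx
      obtain ⟨hxF, hsm⟩ := hx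
      obtain ⟨t1, t2, t3, t4, t5⟩ := ht x hxF
      exact ⟨(hF x hxF).1, (hF x hxF).2.1, (t x).1, t1, Or.inl
        ⟨hhgt x hxF, light_small hk1 t2 t3 t4 (hF x hxF).1 t5 hsm⟩⟩)
    refine h1.trans ?_
    have e1 : M * X ^ (5 / ((2 * k : ℕ) : ℝ)) = M * X ^ ((5 / 2) / (k : ℝ)) := by
      congr 2
      push_cast
      field_simp
    rw [e1]
    exact mul_le_mul_of_nonneg_left (hexp (5 / 2) (by norm_num)) hDb.le
  -- the main part
  have dc : (Fc.card : ℝ) ≤ 27 * Dc * Q := by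
    obtain ⟨W, hW⟩ : ∃ W, W = Fc.image fun x => (t x).1 := ⟨_, rfl⟩
    have hWc : (W.card : ℝ) ≤ M * X ^ (1 / (k : ℝ)) := by
      refine hsets X hXX4 M hM1 (hMexp 1 (by norm_num)) W fun S hS => ?_
      rw [hW, Finset.mem_image] at hS
      obtain ⟨x, hx, rfl⟩ := hS
      rw [hFc, mem_filter] at hx
      exact (ht x hx.1).1
    have h1 := fib_card Fc (W ×ˢ (Finset.univ : Finset (Fin 3 × Fin 3 × Fin 3)))
      (fun x => ((t x).1, (t x).2.1)) (R := Dc * Real.exp (Real.log X / k) ^ 3) (by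
        intro x hx
        simp only [Finset.mem_product, Finset.mem_univ, and_true]
        rw [hW]
        exact Finset.mem_image_of_mem (fun x => (t x).1) hx) (by
        intro b hb
        obtain ⟨S, A, B, C⟩ := b
        rw [Finset.mem_product] at hb
        have hSW := hb.1
        rw [hW, Finset.mem_image] at hSW
        obtain ⟨y, hy, hyS⟩ := hSW
        rw [hFc, mem_filter] at hy
        have hnS : nn S ≤ X := by
          have h2 := (ht y hy.1).1
          rw [hyS] at h2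
          have h3 : M ≤ X ^ (1 : ℝ) := by
            refine hMX.trans (Real.rpow_le_rpow_of_exponent_le hX1 ?_)
            have : 0 < 1 / (k : ℝ) := by positivity
            linarith
          rw [Real.rpow_one] at h3
          exact h2.trans h3
        obtain ⟨F', hF'⟩ : ∃ F', F' = Fc.filter fun x =>
          ((t x).1, (t x).2.1) = (S, A, B, C) := ⟨_, rfl⟩
        rw [← hF']
        rcases F'.eq_empty_or_nonempty with hFe | ⟨z, hz⟩
        · rw [hFe, Finset.card_empty, Nat.cast_zero]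
          positivity
        have hmem : ∀ x ∈ F', x ∈ F ∧ L ≤ k * Real.log (Nv (t x).2.2) ∧
            hgt x ≤ 2 * k * df (Sum.inr (t x).2.2 : Pl K) B x ∧
            A ≠ B ∧ B ≠ C ∧ A ≠ C ∧ InP k S A B C x (t x).2.2 := by
          intro x hx
          rw [hF', mem_filter, hFc, mem_filter] at hx
          obtain ⟨⟨x1, x2, x3⟩, x4⟩ := hx
          simp only [Prod.mk.injEq] at x4
          obtain ⟨x5, x6⟩ := x4
          have x7 := ht x x1
          rw [x6, x5] at x7
          rw [x6] at x3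
          exact ⟨x1, x2, x3, x7.2.1, x7.2.2.1, x7.2.2.2.1, x7.2.2.2.2⟩
        obtain ⟨_, _, _, hAB, hBC, hAC, _⟩ := hmem z hz
        refine hone X hXXc S A B C (fun x => (t x).2.2) hnS hAB hBC hAC F' fun x hx => ?_
        obtain ⟨x1, x2, x3, _, _, _, x7⟩ := hmem x hx
        obtain ⟨y1, y2, y3, y4, _⟩ := hF x x1
        refine ⟨y1, y3, y4, x7, by rw [← hL]; exact x2, ?_, x3⟩
        exact (Nv_le_nn (side_sub B x x7.pB)).trans y2)
    rw [Finset.card_product] at h1
    have h27 : (Finset.univ : Finset (Fin 3 × Fin 3 × Fin 3)).card = 27 := by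
      rw [Finset.card_univ, Fintype.card_prod, Fintype.card_prod, Fintype.card_fin]
    rw [h27] at h1
    push_cast at h1
    have e4 : Real.exp (Real.log X / k) = X ^ (1 / (k : ℝ)) := by
      rw [Real.rpow_def_of_pos hX0]
      congr 1
      ring
    rw [e4] at h1
    have e5 : (X ^ (1 / (k : ℝ))) ^ 3 = X ^ (3 / (k : ℝ)) := by
      rw [← Real.rpow_natCast, ← Real.rpow_mul hX0.le]
      congr 1
      push_cast
      ring
    rw [e5] at h1
    calc (Fc.card : ℝ) ≤ (W.card : ℝ) * 27 * (Dc * X ^ (3 / (k : ℝ))) := h1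
      _ ≤ (M * X ^ (1 / (k : ℝ))) * 27 * (Dc * X ^ (3 / (k : ℝ))) := by
          apply mul_le_mul_of_nonneg_right _ (by positivity)
          exact mul_le_mul_of_nonneg_right hWc (by norm_num)
      _ = 27 * Dc * (M * (X ^ (1 / (k : ℝ)) * X ^ (3 / (k : ℝ)))) := by ring
      _ = 27 * Dc * (M * X ^ (4 / (k : ℝ))) := by
          rw [← Real.rpow_add hX0]
          congr 3
          ring
      _ ≤ _ := mul_le_mul_of_nonneg_left (hexp 4 (by norm_num)) (by positivity)
  have hcard : (F.card : ℝ) ≤ Fa.card + (Fb.card + Fc.card) := by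
    have h1 := Finset.card_le_card hcov
    have h3 := Finset.card_union_le Fa (Fb ∪ Fc)
    have h4 := Finset.card_union_le Fb Fc
    have h6 : F.card ≤ Fa.card + (Fb.card + Fc.card) := by omega
    exact_mod_cast h6
  have e1 : (Da + Db + 27 * Dc) * Q = Da * Q + (Db * Q + 27 * Dc * Q) := by ring
  rw [e1]
  linarith

end Pool.Agent.Y884.AK
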