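import Pool.Agent.Y728.AK.Def
import Pool.Agent.Y884.AK.Gen

/-!
The height of the quotient of two points of a class (helper884).
-/

set_option autoImplicit false

namespace Pool.Agent.Y884.AK

open Finset NumberField IsDedekindDomain Height Pool.Agent.H691R3 Pool.Agent.TH876.Loc
open Pool.Agent.TH876.KR (side aw qt qt_ne lg_qt lg_qt_sub df_eq_zero lg_mul lg_div side_uniq df_int
  mem_side log_Nv_pos')
open Pool.Agent.Y728.AK (GB mu)

variable {K : Type} [Field K] [NumberField K]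

theorem lg_pow (v : Pl K) (a : K) (n : ℕ) : lg v (a ^ n) = n * lg v a := by
  unfold lg
  rw [map_pow, Real.log_pow]
  ring

theorem height_le_lg {z : K} (V : Finset (Pr K)) (hV : ∀ v, v ∉ V → fv v z = 1) :
    logHeight₁ z ≤ ∑ w : InfinitePlace K, |lg (Sum.inl w : Pl K) z| +
      ∑ v ∈ V, |lg (Sum.inr v : Pl K) z| := by
  rw [lh_eq z]
  have e2 : ∑ᶠ v : HeightOneSpectrum (𝓞 K), Real.posLog (fv v z) =
      ∑ v ∈ V, Real.posLog (fv v z) := by
    refine finsum_eq_sum_of_support_subset _ ?_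
    intro v hv
    rw [Function.mem_support] at hv
    by_contra hcon
    apply hv
    rw [hV v (by simpa using hcon), Real.posLog_one]
  rw [e2]
  have hp : ∀ t : ℝ, Real.posLog t ≤ |Real.log t| := by
    intro t
    rw [Real.posLog_apply]
    exact max_le (abs_nonneg _) (le_abs_self _)
  refine add_le_add (Finset.sum_le_sum fun w _ => ?_) (Finset.sum_le_sum fun v _ => ?_)
  · have e3 : lg (Sum.inl w : Pl K) z = (w.mult : ℝ) * Real.log (w z) := rfl
    rw [e3, abs_mul, abs_of_nonneg (Nat.cast_nonneg w.mult : (0 : ℝ) ≤ w.mult)]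
    exact mul_le_mul_of_nonneg_left (hp _) (Nat.cast_nonneg _)
  · have e3 : lg (Sum.inr v : Pl K) z = 1 * Real.log (fv v z) := rfl
    rw [e3, one_mul]
    exact hp _

variable {h0 : ℕ} {C0 : ℝ} {g0 : Pr K → 𝓞 K}

theorem g_ne (G : GB K h0 C0 g0) (p : Pr K) : ((g0 p : 𝓞 K) : K) ≠ 0 := by
  intro h
  have h1 := G.self p
  rw [h, map_zero] at h1
  have h2 : 0 < Nv p := by linarith [two_le_Nv p]
  have h3 : 0 < ((Nv p)⁻¹) ^ h0 := by positivity
  linarith

theorem lg_g_self (G : GB K h0 C0 g0) (p : Pr K) :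
    lg (Sum.inr p : Pl K) ((g0 p : 𝓞 K) : K) = -(h0 * Real.log (Nv p)) := by
  have e3 : lg (Sum.inr p : Pl K) ((g0 p : 𝓞 K) : K) = 1 * Real.log (fv p (g0 p : K)) := rfl
  rw [e3, G.self p, Real.log_pow, Real.log_inv]
  ring

theorem lg_g_ne (G : GB K h0 C0 g0) {u p : Pr K} (h : u ≠ p) :
    lg (Sum.inr u : Pl K) ((g0 p : 𝓞 K) : K) = 0 := by
  have e3 : lg (Sum.inr u : Pl K) ((g0 p : 𝓞 K) : K) = 1 * Real.log (fv u (g0 p : K)) := rfl
  rw [e3, G.ne u p h, Real.log_one, mul_zero]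

theorem lg_g_inf (G : GB K h0 C0 g0) (p p' : Pr K) (w : InfinitePlace K) :
    |lg (Sum.inl w : Pl K) ((g0 p : 𝓞 K) : K) - lg (Sum.inl w : Pl K) ((g0 p' : 𝓞 K) : K)| ≤
      w.mult * (h0 / (Module.finrank ℚ K : ℝ) * |Real.log (Nv p) - Real.log (Nv p')| + 2 * C0) := by
  have e3 : ∀ p : Pr K, lg (Sum.inl w : Pl K) ((g0 p : 𝓞 K) : K) =
      (w.mult : ℝ) * Real.log (w (g0 p : K)) := fun p => rfl
  rw [e3, e3, ← mul_sub, abs_mul, abs_of_nonneg (Nat.cast_nonneg w.mult : (0 : ℝ) ≤ w.mult)]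
  refine mul_le_mul_of_nonneg_left ?_ (Nat.cast_nonneg _)
  have h1 := G.bal p w
  have h2 := G.bal p' w
  rw [abs_le] at h1 h2 ⊢
  have hc : (0 : ℝ) ≤ h0 / (Module.finrank ℚ K : ℝ) := by positivity
  have h3 := mul_le_mul_of_nonneg_left (le_abs_self (Real.log (Nv p) - Real.log (Nv p'))) hc
  have h4 := mul_le_mul_of_nonneg_left (neg_abs_le (Real.log (Nv p) - Real.log (Nv p'))) hc
  constructor <;> linarith [h1.1, h1.2, h2.1, h2.2]

/-- the height of a generator -/
theorem height_g (G : GB K h0 C0 g0) (p : Pr K) :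
    logHeight₁ ((g0 p : 𝓞 K) : K) ≤ 2 * (h0 * Real.log (Nv p)) + Module.finrank ℚ K * C0 := by
  classical
  have h1 := height_le_lg (z := ((g0 p : 𝓞 K) : K)) {p} (by
    intro v hv
    rw [Finset.mem_singleton] at hv
    exact G.ne v p hv)
  rw [Finset.sum_singleton, lg_g_self G p, abs_neg] at h1
  have hl := log_Nv_pos' p
  rw [abs_of_nonneg (by positivity : 0 ≤ (h0 : ℝ) * Real.log (Nv p))] at h1
  have hd : (0 : ℝ) < (Module.finrank ℚ K : ℝ) := by
    exact_mod_cast (Module.finrank_pos (R := ℚ) (M := K))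
  have h2 : ∑ w : InfinitePlace K, |lg (Sum.inl w : Pl K) ((g0 p : 𝓞 K) : K)| ≤
      ∑ w : InfinitePlace K, (w.mult : ℝ) * (h0 / (Module.finrank ℚ K : ℝ) * Real.log (Nv p) + C0) := by
    refine Finset.sum_le_sum fun w _ => ?_
    have e3 : lg (Sum.inl w : Pl K) ((g0 p : 𝓞 K) : K) =
      (w.mult : ℝ) * Real.log (w (g0 p : K)) := rfl
    rw [e3, abs_mul, abs_of_nonneg (Nat.cast_nonneg w.mult : (0 : ℝ) ≤ w.mult)]
    refine mul_le_mul_of_nonneg_left ?_ (Nat.cast_nonneg _)
    have h3 := G.bal p w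
    have h4 : 0 ≤ (h0 : ℝ) / (Module.finrank ℚ K : ℝ) * Real.log (Nv p) := by positivity
    rw [abs_le] at h3 ⊢
    constructor <;> linarith [h3.1, h3.2]
  rw [← Finset.sum_mul, sum_mult] at h2
  have h3 : (Module.finrank ℚ K : ℝ) * (h0 / (Module.finrank ℚ K : ℝ) * Real.log (Nv p) + C0) =
      h0 * Real.log (Nv p) + Module.finrank ℚ K * C0 := by
    field_simp
  rw [h3] at h2
  linarith

/-- the quotient of the two parameters -/
theorem kap_height (G : GB K h0 C0 g0) {S : Finset (Pr K)} {B C : Fin 3}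
    {x x' : K} (hx : Pt x) (hx' : Pt x') {p p' : Pr K} (hp : p ∉ S) (hp' : p' ∉ S)
    (hpB : p ∈ side B x) (hpB' : p' ∈ side B x')
    (fB : ∀ v ∈ side B x, v = p ∨ v ∈ S) (fB' : ∀ v ∈ side B x', v = p' ∨ v ∈ S)
    (fC : side C x ⊆ S) (fC' : side C x' ⊆ S) (E : ℕ) {D1 D2 D3 : ℝ}
    (b1 : |df (Sum.inr p : Pl K) B x - E * Real.log (Nv p)| ≤ D1)
    (b1' : |df (Sum.inr p' : Pl K) B x' - E * Real.log (Nv p')| ≤ D1)
    (b2 : ∑ v ∈ Spl S, |df v B x - df v B x'| ≤ D2)
    (b2' : ∑ v ∈ Spl S, |df v C x - df v C x'| ≤ D2)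
    (b3 : |Real.log (Nv p) - Real.log (Nv p')| ≤ D3) :
    logHeight₁ ((qt B C x / qt B C x') ^ h0 * (((g0 p' : 𝓞 K) : K) / ((g0 p : 𝓞 K) : K)) ^ E) ≤
      h0 * (2 * D1 + 2 * D2) + E * (h0 * D3 + 2 * C0 * Module.finrank ℚ K) := by
  classical
  have hy := qt_ne hx B C
  have hy' := qt_ne hx' B C
  have hgp := g_ne G p
  have hgp' := g_ne G p'
  have hd : (0 : ℝ) < (Module.finrank ℚ K : ℝ) := by
    exact_mod_cast (Module.finrank_pos (R := ℚ) (M := K))
  have hh0 : (0 : ℝ) ≤ h0 := Nat.cast_nonneg _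
  have hE0 : (0 : ℝ) ≤ E := Nat.cast_nonneg _
  obtain ⟨κ, hκ⟩ : ∃ κ : K, κ = (qt B C x / qt B C x') ^ h0 *
      (((g0 p' : 𝓞 K) : K) / ((g0 p : 𝓞 K) : K)) ^ E := ⟨_, rfl⟩
  rw [← hκ]
  have hlg : ∀ v : Pl K, lg v κ = h0 * ((df v C x - df v B x) - (df v C x' - df v B x')) +
      E * (lg v ((g0 p' : 𝓞 K) : K) - lg v ((g0 p : 𝓞 K) : K)) := by
    intro v
    rw [hκ, lg_mul v (pow_ne_zero _ (div_ne_zero hy hy')) (pow_ne_zero _ (div_ne_zero hgp' hgp)),
      lg_pow, lg_pow, lg_div v hy hy', lg_div v hgp' hgp, lg_qt hx, lg_qt hx']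
  -- one point at a prime outside `S`
  have key : ∀ (z : K) (q : Pr K), Pt z → q ∉ S → q ∈ side B z → (∀ v ∈ side B z, v = q ∨ v ∈ S) →
      side C z ⊆ S → |df (Sum.inr q : Pl K) B z - E * Real.log (Nv q)| ≤ D1 →
      ∀ v : Pr K, v ∉ S → |h0 * (df (Sum.inr v : Pl K) C z - df (Sum.inr v : Pl K) B z) -
        E * lg (Sum.inr v : Pl K) ((g0 q : 𝓞 K) : K)| ≤ if v = q then h0 * D1 else 0 := by
    intro z q hz hq hqB fBz fCz hD v hv
    have hC : df (Sum.inr v : Pl K) C z = 0 := df_eq_zero hz fun h => hv (fCz h)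
    by_cases hvq : v = q
    · subst hvq
      rw [if_pos rfl, hC, lg_g_self G v]
      have e1 : (h0 : ℝ) * (0 - df (Sum.inr v : Pl K) B z) - E * -(h0 * Real.log (Nv v)) =
          -(h0 * (df (Sum.inr v : Pl K) B z - E * Real.log (Nv v))) := by ring
      rw [e1, abs_neg, abs_mul, abs_of_nonneg hh0]
      exact mul_le_mul_of_nonneg_left hD hh0
    · have hB : df (Sum.inr v : Pl K) B z = 0 := by
        refine df_eq_zero hz fun h => ?_
        rcases fBz v h with h1 | h1
        · exact hvq h1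
        · exact hv h1
      rw [if_neg hvq, hC, hB, lg_g_ne G hvq]
      simp
  have hD10 : 0 ≤ D1 := (abs_nonneg _).trans b1
  obtain ⟨V, hV⟩ : ∃ V : Finset (Pr K), V = insert p (insert p' S) := ⟨_, rfl⟩
  have hfV : ∀ v, v ∉ V → fv v κ = 1 := by
    intro v hv
    rw [hV, Finset.mem_insert, Finset.mem_insert] at hv
    push Not at hv
    obtain ⟨v1, v2, v3⟩ := hv
    have k1 := key x p hx hp hpB fB fC b1 v v3
    have k2 := key x' p' hx' hp' hpB' fB' fC' b1' v v3
    rw [if_neg v1] at k1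
    rw [if_neg v2] at k2
    have k3 := abs_nonpos_iff.mp k1
    have k4 := abs_nonpos_iff.mp k2
    have h1 : lg (Sum.inr v : Pl K) κ = 0 := by
      rw [hlg]
      linarith
    have h2 : lg (Sum.inr v : Pl K) κ = 1 * Real.log (fv v κ) := rfl
    rw [h2, one_mul] at h1
    have hκ0 : κ ≠ 0 := by
      rw [hκ]
      exact mul_ne_zero (pow_ne_zero _ (div_ne_zero hy hy')) (pow_ne_zero _ (div_ne_zero hgp' hgp))
    exact Real.eq_one_of_pos_of_log_eq_zero ((fv v).pos hκ0) h1
  have hht := height_le_lg V hfV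
  -- the finite part
  have hfin : ∑ v ∈ V, |lg (Sum.inr v : Pl K) κ| ≤
      ∑ v ∈ S, h0 * (|df (Sum.inr v : Pl K) B x - df (Sum.inr v : Pl K) B x'| +
        |df (Sum.inr v : Pl K) C x - df (Sum.inr v : Pl K) C x'|) + 2 * (h0 * D1) := by
    have h1 : ∀ v ∈ V, |lg (Sum.inr v : Pl K) κ| ≤
        (if v ∈ S then h0 * (|df (Sum.inr v : Pl K) B x - df (Sum.inr v : Pl K) B x'| +
          |df (Sum.inr v : Pl K) C x - df (Sum.inr v : Pl K) C x'|) else 0) +
        ((if v = p then h0 * D1 else 0) + (if v = p' then h0 * D1 else 0)) := by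
      intro v _
      have z1 : 0 ≤ (if v = p then h0 * D1 else 0) := by split_ifs <;> positivity
      have z2 : 0 ≤ (if v = p' then h0 * D1 else 0) := by split_ifs <;> positivity
      by_cases hvS : v ∈ S
      · rw [if_pos hvS]
        have hvp : v ≠ p := fun h => hp (h ▸ hvS)
        have hvp' : v ≠ p' := fun h => hp' (h ▸ hvS)
        have h2 : |lg (Sum.inr v : Pl K) κ| ≤
            h0 * (|df (Sum.inr v : Pl K) B x - df (Sum.inr v : Pl K) B x'| +
              |df (Sum.inr v : Pl K) C x - df (Sum.inr v : Pl K) C x'|) := by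
          rw [hlg, lg_g_ne G hvp, lg_g_ne G hvp', sub_zero, mul_zero, add_zero, abs_mul,
            abs_of_nonneg hh0]
          refine mul_le_mul_of_nonneg_left ?_ hh0
          have e1 : df (Sum.inr v : Pl K) C x - df (Sum.inr v : Pl K) B x -
              (df (Sum.inr v : Pl K) C x' - df (Sum.inr v : Pl K) B x') =
              (df (Sum.inr v : Pl K) C x - df (Sum.inr v : Pl K) C x') -
                (df (Sum.inr v : Pl K) B x - df (Sum.inr v : Pl K) B x') := by ring
          rw [e1]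
          refine (abs_sub _ _).trans ?_
          linarith
        linarith
      · rw [if_neg hvS, zero_add]
        have k1 := key x p hx hp hpB fB fC b1 v hvS
        have k2 := key x' p' hx' hp' hpB' fB' fC' b1' v hvS
        have e1 : lg (Sum.inr v : Pl K) κ =
            (h0 * (df (Sum.inr v : Pl K) C x - df (Sum.inr v : Pl K) B x) -
              E * lg (Sum.inr v : Pl K) ((g0 p : 𝓞 K) : K)) -
            (h0 * (df (Sum.inr v : Pl K) C x' - df (Sum.inr v : Pl K) B x') -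
              E * lg (Sum.inr v : Pl K) ((g0 p' : 𝓞 K) : K)) := by
          rw [hlg]
          ring
        rw [e1]
        refine (abs_sub _ _).trans ?_
        linarith
    refine (Finset.sum_le_sum h1).trans ?_
    rw [Finset.sum_add_distrib, Finset.sum_add_distrib]
    have hSV : S ⊆ V := by
      rw [hV]
      intro v hv
      exact Finset.mem_insert_of_mem (Finset.mem_insert_of_mem hv)
    have e1 : ∑ v ∈ V, (if v ∈ S then h0 * (|df (Sum.inr v : Pl K) B x - df (Sum.inr v : Pl K) B x'| +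
          |df (Sum.inr v : Pl K) C x - df (Sum.inr v : Pl K) C x'|) else 0) =
        ∑ v ∈ S, h0 * (|df (Sum.inr v : Pl K) B x - df (Sum.inr v : Pl K) B x'| +
          |df (Sum.inr v : Pl K) C x - df (Sum.inr v : Pl K) C x'|) := by
      rw [← Finset.sum_filter]
      congr 1
      ext v
      rw [Finset.mem_filter]
      exact ⟨fun h => h.2, fun h => ⟨hSV h, h⟩⟩
    have e2 : ∑ v ∈ V, (if v = p then (h0 : ℝ) * D1 else 0) = h0 * D1 := by
      rw [Finset.sum_ite_eq' V p, if_pos]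
      rw [hV]; exact Finset.mem_insert_self _ _
    have e3 : ∑ v ∈ V, (if v = p' then (h0 : ℝ) * D1 else 0) = h0 * D1 := by
      rw [Finset.sum_ite_eq' V p', if_pos]
      rw [hV]; exact Finset.mem_insert_of_mem (Finset.mem_insert_self _ _)
    rw [e1, e2, e3]
    linarith
  -- the infinite part
  have hinf : ∑ w : InfinitePlace K, |lg (Sum.inl w : Pl K) κ| ≤
      ∑ w : InfinitePlace K, h0 * (|df (Sum.inl w : Pl K) B x - df (Sum.inl w : Pl K) B x'| +
        |df (Sum.inl w : Pl K) C x - df (Sum.inl w : Pl K) C x'|) +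
      E * (h0 * D3 + 2 * C0 * Module.finrank ℚ K) := by
    have h1 : ∀ w : InfinitePlace K, |lg (Sum.inl w : Pl K) κ| ≤
        h0 * (|df (Sum.inl w : Pl K) B x - df (Sum.inl w : Pl K) B x'| +
          |df (Sum.inl w : Pl K) C x - df (Sum.inl w : Pl K) C x'|) +
        (w.mult : ℝ) * (E * (h0 / (Module.finrank ℚ K : ℝ) * D3 + 2 * C0)) := by
      intro w
      rw [hlg]
      refine (abs_add_le _ _).trans (add_le_add ?_ ?_)
      · rw [abs_mul, abs_of_nonneg hh0]
        refine mul_le_mul_of_nonneg_left ?_ hh0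
        have e1 : df (Sum.inl w : Pl K) C x - df (Sum.inl w : Pl K) B x -
            (df (Sum.inl w : Pl K) C x' - df (Sum.inl w : Pl K) B x') =
            (df (Sum.inl w : Pl K) C x - df (Sum.inl w : Pl K) C x') -
              (df (Sum.inl w : Pl K) B x - df (Sum.inl w : Pl K) B x') := by ring
        rw [e1]
        refine (abs_sub _ _).trans ?_
        linarith
      · rw [abs_mul, abs_of_nonneg hE0, abs_sub_comm]
        have h2 := lg_g_inf G p p' w
        have h3 : (w.mult : ℝ) * (h0 / (Module.finrank ℚ K : ℝ) *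
            |Real.log (Nv p) - Real.log (Nv p')| + 2 * C0) ≤
            w.mult * (h0 / (Module.finrank ℚ K : ℝ) * D3 + 2 * C0) := by
          refine mul_le_mul_of_nonneg_left ?_ (Nat.cast_nonneg _)
          have := mul_le_mul_of_nonneg_left b3
            (show (0 : ℝ) ≤ h0 / (Module.finrank ℚ K : ℝ) by positivity)
          linarith
        have h4 := mul_le_mul_of_nonneg_left (h2.trans h3) hE0
        linarith
    refine (Finset.sum_le_sum fun w _ => h1 w).trans ?_
    rw [Finset.sum_add_distrib, ← Finset.sum_mul, sum_mult]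
    have e1 : (Module.finrank ℚ K : ℝ) * (E * (h0 / (Module.finrank ℚ K : ℝ) * D3 + 2 * C0)) =
        E * (h0 * D3 + 2 * C0 * Module.finrank ℚ K) := by
      field_simp
    rw [e1]
  rw [← Finset.mul_sum, Finset.sum_add_distrib] at hfin hinf
  rw [sum_Spl] at b2 b2'
  have e5 := mul_le_mul_of_nonneg_left b2 hh0
  have e6 := mul_le_mul_of_nonneg_left b2' hh0
  linarith

end Pool.Agent.Y884.AK
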