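import Pool.Agent.Y884.AK.MidA

/-!
The number of points of a class (helper884).
-/

set_option autoImplicit false

namespace Pool.Agent.Y884.AK

open Finset NumberField IsDedekindDomain Height Pool.Agent.H691R3 Pool.Agent.TH876.Loc
open Pool.Agent.TH876.KR (side aw qt qt_ne lg_qt lg_qt_sub df_eq_zero lg_mul lg_div side_uniq df_int
  mem_side log_Nv_pos' Near df_arch qt_inj log_nn)
open Pool.Agent.Y728.AK (GB mu SunFin SunInf)

variable {K : Type} [Field K] [NumberField K]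

/-- a class of points with one large prime -/
structure Cls (k : ℕ) (S : Finset (Pr K)) (A B C : Fin 3) (L l η : ℝ) (Kp : ℕ) (p : K → Pr K)
    (F : Finset K) : Prop where
  AB : A ≠ B
  BC : B ≠ C
  AC : A ≠ C
  pt : ∀ x ∈ F, Pt x
  lo : ∀ x ∈ F, l ≤ hgt x
  hi : ∀ x ∈ F, hgt x ≤ 2 * l
  pS : ∀ x ∈ F, p x ∉ S
  pB : ∀ x ∈ F, p x ∈ side B x
  fB : ∀ x ∈ F, ∀ v ∈ side B x, v = p x ∨ v ∈ S
  fC : ∀ x ∈ F, side C x ⊆ S
  pl : ∀ x ∈ F, L ≤ k * Real.log (Nv (p x))
  pu : ∀ x ∈ F, Real.log (Nv (p x)) ≤ L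
  dp : ∀ x ∈ F, l ≤ 2 * k * df (Sum.inr (p x) : Pl K) B x
  near : ∀ x ∈ F, ∀ y ∈ F, Near S (l / (16 * Kp * (Spl S).card)) x y
  n1 : ∀ x ∈ F, ∀ y ∈ F, |Real.log (Nv (p x)) - Real.log (Nv (p y))| ≤ η * L
  n2 : ∀ x ∈ F, ∀ y ∈ F,
    |df (Sum.inr (p x) : Pl K) B x - df (Sum.inr (p y) : Pl K) B y| ≤ η * l

theorem df_le_hgt {x : K} (hx : Pt x) (v : Pl K) (i : Fin 3) : df v i x ≤ hgt x := by
  classical
  rcases v with w | v
  · exact Pool.Agent.TH876.KR.df_le_hgt_inf hx w i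
  · rw [← sum_df hx (Finset.subset_insert v (sp x)) i]
    refine Finset.single_le_sum (f := fun v => df v i x) (fun v _ => df_nonneg v i hx) ?_
    rw [inr_mem_Spl]
    exact Finset.mem_insert_self _ _

theorem sum_df_le {x : K} (hx : Pt x) (S : Finset (Pr K)) (i : Fin 3) :
    ∑ v ∈ S, df (Sum.inr v : Pl K) i x ≤ hgt x := by
  classical
  rw [← sum_df hx (Finset.subset_union_left : sp x ⊆ sp x ∪ S) i, sum_Spl]
  have h1 : ∑ v ∈ S, df (Sum.inr v : Pl K) i x ≤ ∑ v ∈ sp x ∪ S, df (Sum.inr v : Pl K) i x :=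
    Finset.sum_le_sum_of_subset_of_nonneg Finset.subset_union_right
      fun v _ _ => df_nonneg _ i hx
  have h2 : 0 ≤ ∑ w : InfinitePlace K, df (Sum.inl w : Pl K) i x :=
    Finset.sum_nonneg fun w _ => df_nonneg _ i hx
  linarith

theorem Spl_card_pos (S : Finset (Pr K)) : 1 ≤ (Spl S).card := by
  obtain ⟨w0⟩ : Nonempty (InfinitePlace K) := inferInstance
  exact Finset.card_pos.2 ⟨Sum.inl w0, inl_mem_Spl S w0⟩

variable {h0 : ℕ} {C0 : ℝ} {g0 : Pr K → 𝓞 K}

/-- the exponent of a class and the heights of the quotients -/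
theorem cls_E (G : GB K h0 C0 g0) {k : ℕ} (hk : 1 ≤ k) {S : Finset (Pr K)} {A B C : Fin 3}
    {L l η : ℝ} {Kp : ℕ} {p : K → Pr K} {F : Finset K} (hF : Cls k S A B C L l η Kp p F)
    (hL : 0 < L) (hl : 0 < l) (hη : 0 < η) (hKp : 1 ≤ η * Kp)
    (h4 : 4 * k * C0 * Module.finrank ℚ K ≤ η * L) {x0 : K} (hx0 : x0 ∈ F) :
    ∃ E : ℕ, E * L ≤ 2 * k * l ∧ l ≤ 2 * k * (E * L) ∧
      ∀ x ∈ F, ∀ x' ∈ F, logHeight₁ ((qt B C x / qt B C x') ^ h0 *
        (mu g0 {p x'} (fun _ => 1) / mu g0 {p x} (fun _ => 1)) ^ E) ≤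
        (h0 * (6 * k + 3) + 1) * (η * l) := by
  obtain ⟨E, hE⟩ := df_int (hF.pt x0 hx0) (p x0) B
  have hk0 : (1 : ℝ) ≤ k := by exact_mod_cast hk
  have hE0 : (0 : ℝ) ≤ E := Nat.cast_nonneg _
  have hd0 : df (Sum.inr (p x0) : Pl K) B x0 ≤ 2 * l :=
    (df_le_hgt (hF.pt x0 hx0) _ _).trans (hF.hi x0 hx0)
  have hp0 := hF.pl x0 hx0
  have hp1 := hF.pu x0 hx0
  have hp2 := hF.dp x0 hx0
  have e1 : E * L ≤ 2 * k * l := by
    have e2 : (E : ℝ) * L ≤ E * (k * Real.log (Nv (p x0))) := mul_le_mul_of_nonneg_left hp0 hE0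
    have e3 : (k : ℝ) * df (Sum.inr (p x0) : Pl K) B x0 ≤ k * (2 * l) :=
      mul_le_mul_of_nonneg_left hd0 (by linarith)
    rw [hE] at e3
    linarith
  refine ⟨E, e1, ?_, ?_⟩
  · have e2 : (E : ℝ) * Real.log (Nv (p x0)) ≤ E * L := mul_le_mul_of_nonneg_left hp1 hE0
    rw [hE] at hp2
    have e3 := mul_le_mul_of_nonneg_left e2 (show (0 : ℝ) ≤ 2 * k by linarith)
    linarith
  · have hb1 : ∀ x ∈ F, |df (Sum.inr (p x) : Pl K) B x - E * Real.log (Nv (p x))| ≤
        (1 + 2 * k) * (η * l) := by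
      intro x hx
      have e2 := hF.n2 x hx x0 hx0
      have e3 := hF.n1 x0 hx0 x hx
      rw [hE] at e2
      have e4 : (E : ℝ) * |Real.log (Nv (p x0)) - Real.log (Nv (p x))| ≤ E * (η * L) :=
        mul_le_mul_of_nonneg_left e3 hE0
      have e5 : η * (E * L) ≤ η * (2 * k * l) := mul_le_mul_of_nonneg_left e1 hη.le
      have e6 : df (Sum.inr (p x) : Pl K) B x - E * Real.log (Nv (p x)) =
          (df (Sum.inr (p x) : Pl K) B x - E * Real.log (Nv (p x0))) +
          E * (Real.log (Nv (p x0)) - Real.log (Nv (p x))) := by ring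
      rw [e6]
      refine (abs_add_le _ _).trans ?_
      rw [abs_mul, abs_of_nonneg hE0]
      linarith
    intro x hx x' hx'
    have hmu : ∀ q : Pr K, mu g0 {q} (fun _ => 1) = ((g0 q : 𝓞 K) : K) := by
      intro q
      unfold Pool.Agent.Y728.AK.mu
      rw [Finset.prod_singleton, zpow_one]
    rw [hmu, hmu]
    have hcard := Spl_card_pos S
    have hcard' : (1 : ℝ) ≤ (Spl S).card := by exact_mod_cast hcard
    have hKp0 : (0 : ℝ) < Kp := by
      by_contra hcon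
      have : (Kp : ℝ) ≤ 0 := not_lt.1 hcon
      nlinarith
    have hsum : ∀ i : Fin 3, ∑ v ∈ Spl S, |df v i x - df v i x'| ≤ η * l / 16 := by
      intro i
      have e2 : ∑ v ∈ Spl S, |df v i x - df v i x'| ≤
          ∑ _v ∈ Spl S, l / (16 * Kp * (Spl S).card) :=
        Finset.sum_le_sum fun v hv => hF.near x hx x' hx' v hv i
      rw [Finset.sum_const, nsmul_eq_mul] at e2
      have e3 : ((Spl S).card : ℝ) * (l / (16 * Kp * (Spl S).card)) = l / (16 * Kp) := by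
        field_simp
      rw [e3] at e2
      refine e2.trans ?_
      rw [div_le_div_iff₀ (by positivity) (by norm_num)]
      nlinarith
    have h5 := kap_height G (S := S) (B := B) (C := C) (hF.pt x hx) (hF.pt x' hx')
      (hF.pS x hx) (hF.pS x' hx') (hF.pB x hx) (hF.pB x' hx') (hF.fB x hx) (hF.fB x' hx')
      (hF.fC x hx) (hF.fC x' hx') E (hb1 x hx) (hb1 x' hx') (hsum B) (hsum C)
      (hF.n1 x hx x' hx')
    refine h5.trans ?_
    have hh0 : (0 : ℝ) ≤ h0 := Nat.cast_nonneg _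
    have e2 : (E : ℝ) * (h0 * (η * L)) ≤ h0 * η * (2 * k * l) := by
      have := mul_le_mul_of_nonneg_left e1 (show 0 ≤ (h0 : ℝ) * η by positivity)
      linarith
    have e3 : (E : ℝ) * (2 * C0 * Module.finrank ℚ K) ≤ η * l := by
      have e4 : (E : ℝ) * (4 * k * C0 * Module.finrank ℚ K) ≤ E * (η * L) :=
        mul_le_mul_of_nonneg_left h4 hE0
      have e5 : η * (E * L) ≤ η * (2 * k * l) := mul_le_mul_of_nonneg_left e1 hη.le
      have e6 : (2 * k : ℝ) * (E * (2 * C0 * Module.finrank ℚ K)) ≤ (2 * k) * (η * l) := by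
        linarith
      exact le_of_mul_le_mul_left e6 (by linarith)
    have e7 : 0 ≤ (h0 : ℝ) * (η * l) := by positivity
    have e8 : (E : ℝ) * (h0 * (η * L) + 2 * C0 * Module.finrank ℚ K) ≤
        h0 * η * (2 * k * l) + η * l := by
      rw [mul_add]
      linarith
    have e9 : (h0 : ℝ) * (2 * ((1 + 2 * k) * (η * l)) + 2 * (η * l / 16)) =
        (2 + 4 * k) * (h0 * (η * l)) + 1 / 8 * (h0 * (η * l)) := by ring
    rw [e9]
    have e10 : (h0 * (6 * k + 3) + 1) * (η * l) =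
        (6 * k + 3) * (h0 * (η * l)) + η * l := by ring
    rw [e10]
    have e11 : (h0 : ℝ) * η * (2 * k * l) = 2 * k * (h0 * (η * l)) := by ring
    rw [e11] at e8
    linarith

/-- large binomial coefficients -/
theorem choose_big {q : ℕ} (hq : 1 ≤ q) {t : ℝ} (ht : 1 ≤ t) :
    t ^ q < ((q + ⌊(q : ℝ) * t⌋₊ + 1 - 1).choose q : ℕ) := by
  obtain ⟨u, hu⟩ : ∃ u, u = ⌊(q : ℝ) * t⌋₊ := ⟨_, rfl⟩
  rw [← hu, Nat.add_sub_cancel]
  have hq0 : (0 : ℝ) < q := by exact_mod_cast hq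
  have h1 : (q : ℝ) * t < u + 1 := by rw [hu]; exact Nat.lt_floor_add_one _
  have h2 : ((q : ℝ) * t) ^ q < (u + 1 : ℝ) ^ q :=
    pow_lt_pow_left₀ h1 (by positivity) (by omega)
  have h5 : (u + 1) ^ q ≤ q.factorial * (q + u).choose q := by
    have h6 := Nat.pow_sub_le_descFactorial (q + u) q
    rw [Nat.descFactorial_eq_factorial_mul_choose] at h6
    have : q + u + 1 - q = u + 1 := by omega
    rwa [this] at h6
  have h5' : ((u : ℝ) + 1) ^ q ≤ q.factorial * ((q + u).choose q : ℕ) := by exact_mod_cast h5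
  have h7 : (q.factorial : ℝ) ≤ (q : ℝ) ^ q := by exact_mod_cast Nat.factorial_le_pow q
  have hf : (0 : ℝ) < q.factorial := by exact_mod_cast Nat.factorial_pos q
  have h8 : (q.factorial : ℝ) * t ^ q ≤ (q : ℝ) ^ q * t ^ q :=
    mul_le_mul_of_nonneg_right h7 (by positivity)
  rw [← mul_pow] at h8
  have h9 : (q.factorial : ℝ) * t ^ q < q.factorial * ((q + u).choose q : ℕ) := by linarith
  exact lt_of_mul_lt_mul_left h9 hf.le

theorem floor_half {z : ℝ} (hz : 1 ≤ z) : z ≤ 2 * (⌊z⌋₊ : ℝ) := by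
  have h1 := Nat.lt_floor_add_one z
  have h2 : 1 ≤ ⌊z⌋₊ := Nat.one_le_floor_iff z |>.2 hz
  have h3 : (1 : ℝ) ≤ ⌊z⌋₊ := by exact_mod_cast h2
  linarith

/-- the case of finite weight -/
theorem class_f (G : GB K h0 C0 g0) (hf : SunFin K h0 g0) : ∃ c1 : ℝ, 1 ≤ c1 ∧
    ∀ {k : ℕ}, 1 ≤ k → ∀ {S : Finset (Pr K)} {A B C : Fin 3} {L l η C1 C' q : ℝ} {Kp : ℕ}
    {p : K → Pr K} {F : Finset K}, Cls k S A B C L l η Kp p F → 0 < η → 0 < L → 0 < l →
    1 ≤ η * Kp → k ≤ Kp → Real.log (nn S) ≤ L →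
    C' = h0 * (6 * k + 3) + 1 → C1 = 2 * h0 + 1 → q = 24 * (k : ℝ) ^ 2 →
    c1 ≤ L → Module.finrank ℚ K * C0 ≤ L → 4 * k * C0 * Module.finrank ℚ K ≤ η * L →
    c1 * q * C' * η * (2 * k) ≤ 1 → c1 * q ^ 2 * C1 * C' * η * (12 * k) ≤ 1 →
    24 * k * L ≤ η * l → η ≤ 1 → 48 * (k : ℝ) ^ 2 ≤ Real.exp (L / c1) * (q * C' * η) →
    (∀ x ∈ F, l ≤ 2 * k * ∑ v ∈ S, df (Sum.inr v : Pl K) A x) →
    (F.card : ℝ) ≤ 3 * (2 * q + 1) * Real.exp (L / k) := by
  classical
  obtain ⟨c1, hc1, hs⟩ := hf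
  refine ⟨c1, hc1, ?_⟩
  intro k hk S A B C L l η C1 C' q Kp p F hF hη hL hl hKp hkKp hnS hC' hC1 hq a1 a2 a3 a4 a5 a6
    a7 a8 hfin
  have hk0 : (1 : ℝ) ≤ k := by exact_mod_cast hk
  have hh0 : (0 : ℝ) ≤ h0 := Nat.cast_nonneg _
  have hexp1 : 1 ≤ Real.exp (L / k) := Real.one_le_exp (by positivity)
  have hq0 : 0 < q := by rw [hq]; positivity
  rcases F.eq_empty_or_nonempty with he | ⟨x0, hx0⟩
  · rw [he, Finset.card_empty, Nat.cast_zero]
    positivity
  obtain ⟨E, hE1, hE2, hE3⟩ := cls_E G hk hF hL hl hη hKp a3 hx0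
  rw [← hC'] at hE3
  have hC'1 : 1 ≤ C' := by rw [hC']; linarith [mul_nonneg hh0 (show (0:ℝ) ≤ 6 * k + 3 by positivity)]
  have hC11 : 1 ≤ C1 := by rw [hC1]; linarith
  -- the exponent `Y`
  have hz : 1 ≤ l / (6 * k * L) := by
    rw [le_div_iff₀ (by positivity)]
    have h1 : η * l ≤ 1 * l := mul_le_mul_of_nonneg_right a7 hl.le
    have h2 : 0 < (k : ℝ) * L := by positivity
    linarith
  obtain ⟨Y, hY⟩ : ∃ Y : ℕ, Y = ⌊l / (6 * k * L)⌋₊ := ⟨_, rfl⟩
  have hY1 : (Y : ℝ) * (6 * k * L) ≤ l := by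
    have h1 : (Y : ℝ) ≤ l / (6 * k * L) := by rw [hY]; exact Nat.floor_le (by positivity)
    rwa [le_div_iff₀ (by positivity)] at h1
  have hY2 : l ≤ 12 * k * L * Y := by
    have h1 := floor_half hz
    rw [← hY, div_le_iff₀ (by positivity)] at h1
    linarith
  have hY0 : (1 : ℝ) ≤ Y := by
    have : 1 ≤ Y := by rw [hY]; exact (Nat.one_le_floor_iff _).2 hz
    exact_mod_cast this
  -- the precision
  obtain ⟨u, hu⟩ : ∃ u : ℝ, u = l / (16 * Kp * (Spl S).card) := ⟨_, rfl⟩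
  have hcard' : (1 : ℝ) ≤ (Spl S).card := by exact_mod_cast Spl_card_pos S
  have hkKp' : (k : ℝ) ≤ Kp := by exact_mod_cast hkKp
  have hKp0 : (0 : ℝ) < Kp := by linarith
  have hu0 : 0 < u := by rw [hu]; positivity
  have huS : (S.card : ℝ) * u ≤ l / (16 * k) := by
    have h1 : (S.card : ℝ) ≤ (Spl S).card := by
      rw [card_Spl]; push_cast; linarith [(Nat.cast_nonneg (Fintype.card (InfinitePlace K)) : (0:ℝ) ≤ _)]
    have h2 : (S.card : ℝ) * u ≤ (Spl S).card * u := mul_le_mul_of_nonneg_right h1 hu0.le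
    have h3 : ((Spl S).card : ℝ) * u = l / (16 * Kp) := by rw [hu]; field_simp
    have h4 : l / (16 * Kp) ≤ l / (16 * k) :=
      div_le_div_of_nonneg_left hl.le (by positivity) (by linarith)
    linarith
  have hPt0 := hF.pt x0 hx0
  obtain ⟨m, hm⟩ : ∃ m : Pr K → ℕ, m = fun v =>
    ⌊(df (Sum.inr v : Pl K) A x0 - u) / (Y * Real.log (Nv v))⌋₊ := ⟨_, rfl⟩
  obtain ⟨S', hS'⟩ : ∃ S' : Finset (Pr K), S' = S.filter fun v => 1 ≤ m v := ⟨_, rfl⟩
  obtain ⟨g, hg⟩ : ∃ g : ℝ, g = ∑ v ∈ S', m v * Real.log (Nv v) := ⟨_, rfl⟩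
  have hgS : g = ∑ v ∈ S, m v * Real.log (Nv v) := by
    rw [hg, hS']
    refine Finset.sum_subset (Finset.filter_subset _ _) ?_
    intro v hv hv'
    have : m v = 0 := by
      by_contra h
      exact hv' (Finset.mem_filter.2 ⟨hv, by omega⟩)
    rw [this, Nat.cast_zero, zero_mul]
  have hmv : ∀ v, 1 ≤ m v → Y * (m v * Real.log (Nv v)) ≤ df (Sum.inr v : Pl K) A x0 - u := by
    intro v hv
    have hlv := log_Nv_pos' v
    have h1 : (0 : ℝ) ≤ (df (Sum.inr v : Pl K) A x0 - u) / (Y * Real.log (Nv v)) := by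
      by_contra hcon
      have h2 : m v = 0 := by
        rw [hm]
        exact Nat.floor_of_nonpos (not_le.1 hcon).le
      omega
    have h3 : ((m v : ℕ) : ℝ) ≤ (df (Sum.inr v : Pl K) A x0 - u) / (Y * Real.log (Nv v)) := by
      rw [hm]; exact Nat.floor_le h1
    rw [le_div_iff₀ (by positivity)] at h3
    linarith
  have hmv' : ∀ v, Y * (m v * Real.log (Nv v)) ≤ df (Sum.inr v : Pl K) A x0 := by
    intro v
    have h0 := df_nonneg (Sum.inr v : Pl K) A hPt0
    rcases Nat.eq_zero_or_pos (m v) with h | h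
    · rw [h, Nat.cast_zero, zero_mul, mul_zero]; exact h0
    · have := hmv v h
      linarith
  have hmlow : ∀ v, df (Sum.inr v : Pl K) A x0 - u - Y * Real.log (Nv v) ≤
      Y * (m v * Real.log (Nv v)) := by
    intro v
    have hlv := log_Nv_pos' v
    have h1 := Nat.lt_floor_add_one ((df (Sum.inr v : Pl K) A x0 - u) / (Y * Real.log (Nv v)))
    have h2 : ((⌊(df (Sum.inr v : Pl K) A x0 - u) / (Y * Real.log (Nv v))⌋₊ : ℕ) : ℝ) = m v := by
      rw [hm]
    rw [h2, div_lt_iff₀ (by positivity)] at h1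
    linarith
  have hgup : g ≤ 24 * k * L := by
    have h1 : Y * g ≤ 2 * l := by
      rw [hgS, Finset.mul_sum]
      calc ∑ v ∈ S, (Y : ℝ) * (m v * Real.log (Nv v)) ≤ ∑ v ∈ S, df (Sum.inr v : Pl K) A x0 :=
            Finset.sum_le_sum fun v _ => hmv' v
        _ ≤ hgt x0 := sum_df_le hPt0 S A
        _ ≤ 2 * l := hF.hi x0 hx0
    have h2 : (Y : ℝ) * g ≤ Y * (24 * k * L) := by linarith
    exact le_of_mul_le_mul_left h2 (by linarith)
  have hglow : L ≤ g := by
    have h1 : ∑ v ∈ S, (df (Sum.inr v : Pl K) A x0 - u - Y * Real.log (Nv v)) ≤ Y * g := by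
      rw [hgS, Finset.mul_sum]
      exact Finset.sum_le_sum fun v _ => hmlow v
    rw [Finset.sum_sub_distrib, Finset.sum_sub_distrib, Finset.sum_const, nsmul_eq_mul,
      ← Finset.mul_sum, ← log_nn] at h1
    have h2 := hfin x0 hx0
    have h3 : (Y : ℝ) * Real.log (nn S) ≤ Y * L := mul_le_mul_of_nonneg_left hnS (by linarith)
    have h4 : l / (2 * k) ≤ ∑ v ∈ S, df (Sum.inr v : Pl K) A x0 := by
      rw [div_le_iff₀ (by positivity)]; linarith
    have h5 : l / (2 * k) - l / (16 * k) - Y * L ≤ Y * g := by linarith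
    have h6 : l / (2 * k) - l / (16 * k) = 7 / 16 * (l / k) := by
      field_simp; norm_num
    have h7 : 6 * (Y * L) ≤ l / k := by
      rw [le_div_iff₀ (by positivity)]; linarith
    rw [h6] at h5
    have hYL : 0 < (Y : ℝ) * L := by positivity
    have h8 : (Y : ℝ) * L ≤ Y * g := by linarith
    exact le_of_mul_le_mul_left h8 (by linarith)
  -- the combinatorial parameters
  obtain ⟨qn, hqn⟩ : ∃ qn : ℕ, qn = 24 * k ^ 2 := ⟨_, rfl⟩
  have hqq : (qn : ℝ) = q := by rw [hqn, hq]; push_cast; ring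
  have hqn1 : 1 ≤ qn := by
    rw [hqn]
    have : 0 < k ^ 2 := by positivity
    omega
  obtain ⟨t, ht⟩ : ∃ t : ℝ, t = Real.exp (L / k) := ⟨_, rfl⟩
  have ht1 : 1 ≤ t := by rw [ht]; exact hexp1
  have htq : t ^ qn = Real.exp (24 * k * L) := by
    rw [ht, ← Real.exp_nat_mul, hqq, hq]
    congr 1
    field_simp
  obtain ⟨s, hsd⟩ : ∃ s : ℕ, s = qn + ⌊(qn : ℝ) * t⌋₊ + 1 := ⟨_, rfl⟩
  have hsb := choose_big hqn1 ht1
  rw [← hsd, htq] at hsb
  have hfin' := hs F S' m (fun x => qt B C x) (fun x => {p x}) (fun _ _ => 1) 1 1 qn s g (C1 * L)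
    (C' * (η * l)) E Y
    (fun v hv => by rw [hS', Finset.mem_filter] at hv; exact hv.2) hg (a1.trans hglow)
    (fun x hx => qt_ne (hF.pt x hx) B C)
    (fun x _ => by rw [Finset.card_singleton])
    (fun x _ v _ => ⟨one_ne_zero, by norm_num⟩)
    (fun x hx v hv => by
      rw [hS', Finset.mem_filter] at hv
      rw [Finset.mem_singleton]
      rintro rfl
      exact hF.pS x hx hv.1)
    (fun x hx => by
      have h1 : mu g0 {p x} (fun _ => (1 : ℤ)) = ((g0 (p x) : 𝓞 K) : K) := by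
        unfold Pool.Agent.Y728.AK.mu
        rw [Finset.prod_singleton, zpow_one]
      rw [h1]
      have h2 := height_g G (p x)
      have h3 := hF.pu x hx
      have h4 : (h0 : ℝ) * Real.log (Nv (p x)) ≤ h0 * L := mul_le_mul_of_nonneg_left h3 hh0
      rw [hC1]
      linarith)
    (fun x hx x' hx' => hE3 x hx x' hx')
    (fun x hx v hv => by
      rw [hS', Finset.mem_filter] at hv
      have hPt := hF.pt x hx
      have h1 := hmv v hv.2
      have h2 := hF.near x0 hx0 x hx (Sum.inr v) ((inr_mem_Spl S v).2 hv.1) A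
      rw [← hu] at h2
      have h3 : Y * (m v * Real.log (Nv v)) ≤ df (Sum.inr v : Pl K) A x := by
        have := (abs_le.1 h2).2
        linarith
      have hlv := log_Nv_pos' v
      have hmv1 : (1 : ℝ) ≤ m v := by exact_mod_cast hv.2
      have h4 : 0 < df (Sum.inr v : Pl K) A x := by
        have : 0 < (Y : ℝ) * (m v * Real.log (Nv v)) := by positivity
        linarith
      have h5 : df (Sum.inr v : Pl K) C x = 0 := by
        refine df_eq_zero hPt fun h => ?_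
        exact hF.AC (side_uniq ((mem_side hPt).2 h4) h)
      have h6 := lg_qt_sub hPt hF.AB hF.BC hF.AC (Sum.inr v)
      have h7 : lg (Sum.inr v : Pl K) (qt B C x - 1) = 1 * Real.log (fv v (qt B C x - 1)) := rfl
      rw [h7, h5, one_mul, zero_sub] at h6
      have hne : qt B C x - 1 ≠ 0 := by
        rw [Pool.Agent.TH876.KR.qt_sub hPt hF.AB hF.BC hF.AC]
        exact div_ne_zero (L_ne hPt A) (L_ne hPt C)
      rw [← Real.exp_log ((fv v).pos hne), h6]
      exact Real.exp_le_exp.mpr (by linarith))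
    (fun x hx x' hx' he => qt_inj hF.BC (hF.pt x hx) (hF.pt x' hx') he)
    hqn1 (by omega)
    (lt_of_le_of_lt (Real.exp_le_exp.mpr hgup) hsb)
    (by
      rw [hqq, hq]
      have h1 : (24 * k * L : ℝ) ≤ 24 * (k : ℝ) ^ 2 * L := by
        have : (k : ℝ) * 1 ≤ k * k := mul_le_mul_of_nonneg_left hk0 (by linarith)
        nlinarith
      have h2 : 24 * (k : ℝ) ^ 2 * L * 1 ≤ 24 * (k : ℝ) ^ 2 * L * C1 :=
        mul_le_mul_of_nonneg_left hC11 (by positivity)
      have h3 : 0 ≤ 24 * (k : ℝ) ^ 2 * L * C1 := by positivity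
      linarith)
    (by
      rw [hqq]
      have h1 : 1 * (η * l) ≤ q * C' * (η * l) := by
        apply mul_le_mul_of_nonneg_right _ (by positivity)
        have h2 : 1 ≤ q := by
          rw [hq]
          have : (1 : ℝ) ≤ (k : ℝ) ^ 2 := one_le_pow₀ hk0
          linarith
        have h3 : 1 * 1 ≤ q * C' := mul_le_mul h2 hC'1 (by norm_num) hq0.le
        linarith
      linarith)
    (by
      rw [hqq]
      have h1 : (c1 * q * C' * η * (2 * k)) * (E * L) ≤ 1 * (E * L) :=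
        mul_le_mul_of_nonneg_right a4 (by positivity)
      have h2 : c1 * (q * (C' * (η * l))) ≤ c1 * (q * (C' * (η * (2 * k * (E * L))))) := by
        have h3 := mul_le_mul_of_nonneg_left hE2 (show 0 ≤ c1 * q * C' * η by positivity)
        linarith
      have h3 : (L : ℝ) * E ≤ g * E := mul_le_mul_of_nonneg_right hglow (Nat.cast_nonneg _)
      linarith)
    (by
      rw [hqq]
      have h1 : (E : ℝ) * g ≤ E * (24 * k * L) :=
        mul_le_mul_of_nonneg_left hgup (Nat.cast_nonneg _)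
      have h2 : (24 * k : ℝ) * (E * L) ≤ (24 * k) * (2 * k * l) :=
        mul_le_mul_of_nonneg_left hE1 (by positivity)
      have h3 : 48 * (k : ℝ) ^ 2 * l ≤ Real.exp (L / c1) * (q * C' * η) * l :=
        mul_le_mul_of_nonneg_right a8 hl.le
      have h4 : Real.exp (L / c1) * (q * (C' * (η * l))) ≤
          Real.exp (g / c1) * (q * (C' * (η * l))) := by
        apply mul_le_mul_of_nonneg_right _ (by positivity)
        exact Real.exp_le_exp.mpr (div_le_div_of_nonneg_right hglow (by linarith))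
      linarith)
    (by
      rw [hqq]
      have h1 : (c1 * q ^ 2 * C1 * C' * η * (12 * k)) * (Y * L ^ 2) ≤ 1 * (Y * L ^ 2) :=
        mul_le_mul_of_nonneg_right a5 (by positivity)
      have h2 : c1 * (q * (C1 * L)) * (q * (C' * (η * l))) ≤
          c1 * (q * (C1 * L)) * (q * (C' * (η * (12 * k * L * Y)))) := by
        have h3 := mul_le_mul_of_nonneg_left hY2
          (show 0 ≤ c1 * (q * (C1 * L)) * (q * (C' * η)) by positivity)
        linarith
      have h3 : (Y : ℝ) * L ^ 2 ≤ Y * g ^ 2 :=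
        mul_le_mul_of_nonneg_left (pow_le_pow_left₀ hL.le hglow 2) (by linarith)
      linarith)
  have h9 : (F.card : ℝ) ≤ 3 * s := by
    have : F.card ≤ 3 * s := by
      simp only [pow_one, Nat.factorial_one, mul_one] at hfin'
      omega
    exact_mod_cast this
  have h10 : (s : ℝ) ≤ (2 * q + 1) * t := by
    rw [hsd]
    push_cast
    have h1 : ((⌊(qn : ℝ) * t⌋₊ : ℕ) : ℝ) ≤ qn * t := Nat.floor_le (by positivity)
    rw [hqq] at h1 ⊢
    have h2 : q * 1 ≤ q * t := mul_le_mul_of_nonneg_left ht1 hq0.le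
    linarith
  rw [← ht]
  linarith

end Pool.Agent.Y884.AK
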