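import Pool.Agent.Y884.AK.MidB

/-!
The number of points of a class, the archimedean case (helper884).
-/

set_option autoImplicit false

namespace Pool.Agent.Y884.AK

open Finset NumberField IsDedekindDomain Height Pool.Agent.H691R3 Pool.Agent.TH876.Loc
open Pool.Agent.TH876.KR (side aw qt qt_ne lg_qt lg_qt_sub df_eq_zero lg_mul lg_div side_uniq df_int
  mem_side log_Nv_pos' Near df_arch qt_inj log_nn)
open Pool.Agent.Y728.AK (GB SunFin SunInf)

variable {K : Type} [Field K] [NumberField K] {h0 : ℕ} {C0 : ℝ} {g0 : Pr K → 𝓞 K}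

/-- the case of a large weight at an infinite place -/
theorem class_i (G : GB K h0 C0 g0) (hf : SunInf K h0 g0) : ∃ c1 : ℝ, 1 ≤ c1 ∧
    ∀ {k : ℕ}, 1 ≤ k → ∀ {S : Finset (Pr K)} {A B C : Fin 3} {L l η C1 C' q r : ℝ} {Kp : ℕ}
    {p : K → Pr K} {F : Finset K} (w : InfinitePlace K), Cls k S A B C L l η Kp p F → 0 < η →
    0 < L → 0 < l → 1 ≤ r → 1 ≤ η * Kp →
    C' = h0 * (6 * k + 3) + 1 → C1 = 2 * h0 + 1 → q = 24 * (k : ℝ) ^ 2 →
    c1 ≤ L → Module.finrank ℚ K * C0 ≤ L → 4 * k * C0 * Module.finrank ℚ K ≤ η * L →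
    c1 * q * C' * η * (2 * k) ≤ 1 → c1 * q ^ 2 * C1 * C' * η * (16 * k * r) ≤ 1 →
    16 * k * r * L ≤ η * l → η ≤ 1 → l ≤ L ^ 3 →
    2 * k * q * C1 * L ^ 3 ≤ Real.exp (L / c1) → c1 * q * C1 * L ≤ Real.exp L →
    (∀ x ∈ F, l ≤ 2 * k * r * df (Sum.inl w : Pl K) A x) →
    (F.card : ℝ) ≤ 3 * (2 * q + 1) * Real.exp (L / k) := by
  classical
  obtain ⟨c1, hc1, hs⟩ := hf
  refine ⟨c1, hc1, ?_⟩
  intro k hk S A B C L l η C1 C' q r Kp p F w hF hη hL hl hr hKp hC' hC1 hq a1 a2 a3 a4 a5 a6
    a7 a8 a9 a10 hinf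
  have hk0 : (1 : ℝ) ≤ k := by exact_mod_cast hk
  have hh0 : (0 : ℝ) ≤ h0 := Nat.cast_nonneg _
  have hexp1 : 1 ≤ Real.exp (L / k) := Real.one_le_exp (by positivity)
  have hk2 : (1 : ℝ) ≤ (k : ℝ) ^ 2 := one_le_pow₀ hk0
  have hq24 : 24 ≤ q := by rw [hq]; linarith
  have hq0 : 0 < q := by linarith
  rcases F.eq_empty_or_nonempty with he | ⟨x0, hx0⟩
  · rw [he, Finset.card_empty, Nat.cast_zero]
    positivity
  obtain ⟨E, hE1, hE2, hE3⟩ := cls_E G hk hF hL hl hη hKp a3 hx0
  rw [← hC'] at hE3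
  have hC'1 : 1 ≤ C' := by rw [hC']; linarith [mul_nonneg hh0 (show (0:ℝ) ≤ 6 * k + 3 by positivity)]
  have hC11 : 1 ≤ C1 := by rw [hC1]; linarith
  have hkr1 : 1 ≤ k * r := by
    have := mul_le_mul hk0 hr (by norm_num) (by linarith)
    linarith
  have hηl : η * l ≤ l := by
    have := mul_le_mul_of_nonneg_right a7 hl.le
    linarith
  -- the exponent `Y`
  have hkrL : 0 < (k * r) * L := by positivity
  have hz2 : 2 ≤ l / (8 * k * r * L) := by
    rw [le_div_iff₀ (by positivity)]
    linarith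
  have hz : 1 ≤ l / (8 * k * r * L) := by linarith
  obtain ⟨Y, hY⟩ : ∃ Y : ℕ, Y = ⌊l / (8 * k * r * L)⌋₊ := ⟨_, rfl⟩
  have hY1 : (Y : ℝ) * (8 * k * r * L) ≤ l := by
    have h1 : (Y : ℝ) ≤ l / (8 * k * r * L) := by rw [hY]; exact Nat.floor_le (by positivity)
    rwa [le_div_iff₀ (by positivity)] at h1
  have hY2 : l ≤ 16 * k * r * L * Y := by
    have h1 := floor_half hz
    rw [← hY, div_le_iff₀ (by positivity)] at h1
    linarith
  have hY3 : 2 ≤ Y := by
    rw [hY]
    exact Nat.le_floor (by exact_mod_cast hz2)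
  -- the combinatorial parameters
  obtain ⟨qn, hqn⟩ : ∃ qn : ℕ, qn = 24 * k ^ 2 := ⟨_, rfl⟩
  have hqq : (qn : ℝ) = q := by rw [hqn, hq]; push_cast; ring
  have hqn1 : 1 ≤ qn := by
    rw [hqn]
    have : 0 < k ^ 2 := by positivity
    omega
  obtain ⟨t, ht⟩ : ∃ t : ℝ, t = Real.exp (L / k) := ⟨_, rfl⟩
  have ht1 : 1 ≤ t := by rw [ht]; exact hexp1
  have htq : t ^ qn = Real.exp (24 * k * L) := by
    rw [ht, ← Real.exp_nat_mul, hqq, hq]
    congr 1
    field_simp
  obtain ⟨s, hsd⟩ : ∃ s : ℕ, s = qn + ⌊(qn : ℝ) * t⌋₊ + 1 := ⟨_, rfl⟩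
  have hsb := choose_big hqn1 ht1
  rw [← hsd, htq] at hsb
  have hL24 : Real.exp (3 * L) ≤ Real.exp (24 * k * L) := by
    apply Real.exp_le_exp.mpr
    have : 1 * L ≤ k * L := mul_le_mul_of_nonneg_right hk0 hL.le
    linarith
  have hfin' := hs F w (fun x => qt B C x) (fun x => {p x}) (fun _ _ => 1) 1 1 qn s L (C1 * L)
    (C' * (η * l)) E Y a1
    (fun x hx => qt_ne (hF.pt x hx) B C)
    (fun x _ => by rw [Finset.card_singleton])
    (fun x _ v _ => ⟨one_ne_zero, by norm_num⟩)
    (fun x hx => by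
      have h1 : Pool.Agent.Y728.AK.mu g0 {p x} (fun _ => (1 : ℤ)) = ((g0 (p x) : 𝓞 K) : K) := by
        unfold Pool.Agent.Y728.AK.mu
        rw [Finset.prod_singleton, zpow_one]
      rw [h1]
      have h2 := height_g G (p x)
      have h3 := hF.pu x hx
      have h4 : (h0 : ℝ) * Real.log (Nv (p x)) ≤ h0 * L := mul_le_mul_of_nonneg_left h3 hh0
      rw [hC1]
      linarith)
    (fun x hx x' hx' => hE3 x hx x' hx')
    (fun x hx => by
      have hPt := hF.pt x hx
      have h1 := hinf x hx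
      have hm0 : (0 : ℝ) < w.mult := by exact_mod_cast InfinitePlace.mult_pos
      have hm2 : (w.mult : ℝ) ≤ 2 := by
        have : w.mult ≤ 2 := by unfold InfinitePlace.mult; split_ifs <;> omega
        exact_mod_cast this
      have hl2 := Real.log_two_lt_d9
      have hl2' : 0 < Real.log 2 := Real.log_pos (by norm_num)
      have hD0 := df_nonneg (Sum.inl w : Pl K) A hPt
      -- the lower bound for the defect
      have h2 : 2 * (w.mult * Real.log 2 + w.mult * (Y * L)) ≤ 2 * df (Sum.inl w : Pl K) A x := by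
        have e1 : (8 * (k * r)) * (w.mult * (Y * L)) ≤ 2 * l := by
          have e2 : (w.mult : ℝ) * ((8 * (k * r)) * (Y * L)) ≤ 2 * ((8 * (k * r)) * (Y * L)) :=
            mul_le_mul_of_nonneg_right hm2 (by positivity)
          linarith
        have e3 : (8 * (k * r)) * (w.mult * Real.log 2) ≤ 2 * l := by
          have e4 : (w.mult : ℝ) * Real.log 2 ≤ 2 * 1 :=
            mul_le_mul hm2 (by linarith) hl2'.le (by norm_num)
          have e5 : (8 * (k * r)) * (w.mult * Real.log 2) ≤ (8 * (k * r)) * (2 * 1) :=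
            mul_le_mul_of_nonneg_left e4 (by positivity)
          have e6 : (k * r) * 1 ≤ (k * r) * L := mul_le_mul_of_nonneg_left (hc1.trans a1) (by positivity)
          linarith
        have e7 : (8 * (k * r)) * (w.mult * Real.log 2 + w.mult * (Y * L)) ≤
            (8 * (k * r)) * df (Sum.inl w : Pl K) A x := by
          rw [mul_add]
          linarith
        have e8 := le_of_mul_le_mul_left e7 (by positivity)
        linarith
      have hYL : 0 < w.mult * ((Y : ℝ) * L) := by
        have : (0 : ℝ) < Y := by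
          have : 0 < Y := by omega
          exact_mod_cast this
        positivity
      have h3 : w.mult * Real.log 2 < df (Sum.inl w : Pl K) A x := by linarith
      have h4 : df (Sum.inl w : Pl K) C x ≤ w.mult * Real.log 2 := by
        rcases min_le_iff.1 (df_arch hPt hF.AC w) with h | h
        · linarith
        · exact h
      have h6 := lg_qt_sub hPt hF.AB hF.BC hF.AC (Sum.inl w)
      have h7 : lg (Sum.inl w : Pl K) (qt B C x - 1) =
        (w.mult : ℝ) * Real.log (w (qt B C x - 1)) := rfl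
      have hne : qt B C x - 1 ≠ 0 := by
        rw [Pool.Agent.TH876.KR.qt_sub hPt hF.AB hF.BC hF.AC]
        exact div_ne_zero (L_ne hPt A) (L_ne hPt C)
      have h8 : Real.log (w (qt B C x - 1)) ≤ -(Y * L) := by
        rw [h7] at h6
        have h9 : (w.mult : ℝ) * Real.log (w (qt B C x - 1)) ≤ w.mult * (-(Y * L)) := by
          rw [h6]
          linarith
        exact le_of_mul_le_mul_left h9 hm0
      have hpos : 0 < w (qt B C x - 1) := InfinitePlace.pos_iff.mpr hne
      have h10 : w (qt B C x - 1) ≤ Real.exp (-(Y * L)) := by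
        rw [← Real.exp_log hpos]
        exact Real.exp_le_exp.mpr h8
      exact h10)
    (fun x hx x' hx' he => qt_inj hF.BC (hF.pt x hx) (hF.pt x' hx') he)
    hqn1 (by omega)
    (by
      rw [hqq]
      refine lt_of_le_of_lt ?_ hsb
      refine le_trans ?_ hL24
      have h1 : c1 * (q * (C1 * L)) * Real.exp (2 * L) ≤ Real.exp L * Real.exp (2 * L) := by
        apply mul_le_mul_of_nonneg_right _ (Real.exp_pos _).le
        linarith
      rw [← Real.exp_add] at h1
      have h2 : L + 2 * L = 3 * L := by ring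
      rw [h2] at h1
      exact h1)
    (by
      rw [hqq]
      have h1 : c1 * q * (1 * 1) ≤ c1 * q * (C1 * L) :=
        mul_le_mul_of_nonneg_left (mul_le_mul hC11 (hc1.trans a1) (by norm_num) (by linarith))
          (by positivity)
      linarith)
    hY3
    (by
      rw [hqq]
      have h1 : 1 * (1 * L) ≤ q * (C1 * L) :=
        mul_le_mul (by linarith) (mul_le_mul_of_nonneg_right hC11 hL.le) (by linarith) hq0.le
      linarith)
    (by
      rw [hqq]
      have h1 : 1 * (η * l) ≤ q * C' * (η * l) := by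
        apply mul_le_mul_of_nonneg_right _ (by positivity)
        have h3 : 1 * 1 ≤ q * C' := mul_le_mul (by linarith) hC'1 (by norm_num) hq0.le
        linarith
      have h4 : 1 * L ≤ (k * r) * L := mul_le_mul_of_nonneg_right hkr1 hL.le
      linarith)
    (by
      rw [hqq]
      have h1 : (c1 * q * C' * η * (2 * k)) * (E * L) ≤ 1 * (E * L) :=
        mul_le_mul_of_nonneg_right a4 (by positivity)
      have h2 : c1 * (q * (C' * (η * l))) ≤ c1 * (q * (C' * (η * (2 * k * (E * L))))) := by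
        have h3 := mul_le_mul_of_nonneg_left hE2 (show 0 ≤ c1 * q * C' * η by positivity)
        linarith
      linarith)
    (by
      rw [hqq]
      have h1 := mul_le_mul_of_nonneg_left hE1 (show 0 ≤ q * C1 by positivity)
      have h2 := mul_le_mul_of_nonneg_left a8 (show 0 ≤ 2 * k * q * C1 by positivity)
      linarith)
    (by
      rw [hqq]
      have h1 : (c1 * q ^ 2 * C1 * C' * η * (16 * k * r)) * (Y * L ^ 2) ≤ 1 * (Y * L ^ 2) :=
        mul_le_mul_of_nonneg_right a5 (by positivity)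
      have h2 : c1 * (q * (C1 * L)) * (q * (C' * (η * l))) ≤
          c1 * (q * (C1 * L)) * (q * (C' * (η * (16 * k * r * L * Y)))) := by
        have h3 := mul_le_mul_of_nonneg_left hY2
          (show 0 ≤ c1 * (q * (C1 * L)) * (q * (C' * η)) by positivity)
        linarith
      linarith)
  have h9 : (F.card : ℝ) ≤ 3 * s := by
    have : F.card ≤ 3 * s := by
      simp only [pow_one, Nat.factorial_one, mul_one] at hfin'
      omega
    exact_mod_cast this
  have h10 : (s : ℝ) ≤ (2 * q + 1) * t := by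
    rw [hsd]
    push_cast
    have h1 : ((⌊(qn : ℝ) * t⌋₊ : ℕ) : ℝ) ≤ qn * t := Nat.floor_le (by positivity)
    rw [hqq] at h1 ⊢
    have h2 : q * 1 ≤ q * t := mul_le_mul_of_nonneg_left ht1 hq0.le
    linarith
  rw [← ht]
  linarith

end Pool.Agent.Y884.AK
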