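import Pool.Agent.Y884.AK.MidC

/-!
Points with one large prime at one scale: splitting into classes (helper884).
-/

set_option autoImplicit false

namespace Pool.Agent.Y884.AK

open Finset NumberField IsDedekindDomain Height Pool.Agent.H691R3 Pool.Agent.TH876.Loc
open Pool.Agent.TH876.KR (side aw log_Nv_pos' Near floor_close cells)
open Pool.Agent.Y728.AK (GB SunFin SunInf)

variable {K : Type} [Field K] [NumberField K]

/-- points with one large prime at one scale -/
structure PCls (k : ℕ) (S : Finset (Pr K)) (A B C : Fin 3) (L l : ℝ) (p : K → Pr K)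
    (F : Finset K) : Prop where
  AB : A ≠ B
  BC : B ≠ C
  AC : A ≠ C
  pt : ∀ x ∈ F, Pt x
  lo : ∀ x ∈ F, l ≤ hgt x
  hi : ∀ x ∈ F, hgt x ≤ 2 * l
  pS : ∀ x ∈ F, p x ∉ S
  pB : ∀ x ∈ F, p x ∈ side B x
  fB : ∀ x ∈ F, ∀ v ∈ side B x, v = p x ∨ v ∈ S
  fC : ∀ x ∈ F, side C x ⊆ S
  pl : ∀ x ∈ F, L ≤ k * Real.log (Nv (p x))
  pu : ∀ x ∈ F, Real.log (Nv (p x)) ≤ L
  dp : ∀ x ∈ F, l ≤ 2 * k * df (Sum.inr (p x) : Pl K) B x
  wt : ∀ x ∈ F, hgt x ≤ k * (aw A x + ∑ v ∈ S, df (Sum.inr v : Pl K) A x)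

/-- pigeonhole with a real bound -/
theorem fib_card {α β : Type*} [DecidableEq β] (F : Finset α) (T : Finset β) (c : α → β)
    (hc : ∀ x ∈ F, c x ∈ T) {R : ℝ} (h : ∀ b ∈ T, ((F.filter fun x => c x = b).card : ℝ) ≤ R) :
    (F.card : ℝ) ≤ T.card * R := by
  rw [Finset.card_eq_sum_card_fiberwise hc]
  push_cast
  calc ∑ b ∈ T, ((F.filter fun x => c x = b).card : ℝ) ≤ ∑ _b ∈ T, R := Finset.sum_le_sum h
    _ = T.card * R := by rw [Finset.sum_const, nsmul_eq_mul]

/-- splitting into classes -/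
theorem split_classes {k : ℕ} (hk : 1 ≤ k) {S : Finset (Pr K)} {A B C : Fin 3} {L l η R : ℝ}
    {Kp : ℕ} (hKp : 1 ≤ Kp) {p : K → Pr K} {F : Finset K} (hF : PCls k S A B C L l p F)
    (hL : 0 < L) (hl : 0 < l) (hη : 0 < η)
    (hfin : ∀ F' : Finset K, Cls k S A B C L l η Kp p F' →
      (∀ x ∈ F', l ≤ 2 * k * ∑ v ∈ S, df (Sum.inr v : Pl K) A x) → (F'.card : ℝ) ≤ R)
    (hinf : ∀ F' : Finset K, Cls k S A B C L l η Kp p F' → ∀ w : InfinitePlace K,
      (∀ x ∈ F', l ≤ 2 * k * (Fintype.card (InfinitePlace K) : ℝ) *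
        df (Sum.inl w : Pl K) A x) → (F'.card : ℝ) ≤ R) :
    (F.card : ℝ) ≤ ((2 ^ (99 * Kp * (Spl S).card) * ((⌊1 / η⌋₊ + 1) * ((⌊2 / η⌋₊ + 1) *
      (Fintype.card (InfinitePlace K) + 1))) : ℕ) : ℝ) * R := by
  classical
  obtain ⟨f, hf1, hf2⟩ := cells hKp S hl F (fun x hx => ⟨hF.pt x hx, hF.hi x hx⟩)
  have hk0 : (1 : ℝ) ≤ k := by exact_mod_cast hk
  obtain ⟨r, hr⟩ : ∃ r : ℝ, r = (Fintype.card (InfinitePlace K) : ℝ) := ⟨_, rfl⟩
  have hr1 : 1 ≤ r := by
    rw [hr]
    have : 0 < Fintype.card (InfinitePlace K) := Fintype.card_pos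
    exact_mod_cast this
  -- the dichotomy
  have hdich : ∀ x ∈ F, ¬ (l ≤ 2 * k * ∑ v ∈ S, df (Sum.inr v : Pl K) A x) →
      ∃ w : InfinitePlace K, l ≤ 2 * k * r * df (Sum.inl w : Pl K) A x := by
    intro x hx hn
    have h1 := hF.wt x hx
    have h2 := hF.lo x hx
    by_contra hcon
    push Not at hcon
    have h3 : ∑ w : InfinitePlace K, 2 * k * r * df (Sum.inl w : Pl K) A x ≤
        ∑ _w : InfinitePlace K, l := Finset.sum_le_sum fun w _ => (hcon w).le
    rw [Finset.sum_const, nsmul_eq_mul, Finset.card_univ, ← hr, ← Finset.mul_sum] at h3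
    have h4 : ∑ w : InfinitePlace K, df (Sum.inl w : Pl K) A x = aw A x := rfl
    rw [h4] at h3
    have h5 : r * (2 * k * aw A x) ≤ r * l := by linarith
    have h6 := le_of_mul_le_mul_left h5 (by linarith)
    linarith
  have hex : ∀ x : K, ∃ o : Option (InfinitePlace K), x ∈ F →
      ((o = none ∧ l ≤ 2 * k * ∑ v ∈ S, df (Sum.inr v : Pl K) A x) ∨
        ∃ w, o = some w ∧ l ≤ 2 * k * r * df (Sum.inl w : Pl K) A x) := by
    intro x
    by_cases hx : x ∈ F
    · by_cases h : l ≤ 2 * k * ∑ v ∈ S, df (Sum.inr v : Pl K) A x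
      · exact ⟨none, fun _ => Or.inl ⟨rfl, h⟩⟩
      · obtain ⟨w, hw⟩ := hdich x hx h
        exact ⟨some w, fun _ => Or.inr ⟨w, rfl, hw⟩⟩
    · exact ⟨none, fun h => absurd h hx⟩
  choose o ho using hex
  obtain ⟨c, hc⟩ : ∃ c : K → ℕ × ℕ × ℕ × Option (InfinitePlace K), c = fun x =>
    (f x, ⌊Real.log (Nv (p x)) * (1 / (η * L))⌋₊,
      ⌊df (Sum.inr (p x) : Pl K) B x * (1 / (η * l))⌋₊, o x) := ⟨_, rfl⟩
  have hT := fib_card F (Finset.range (2 ^ (99 * Kp * (Spl S).card)) ×ˢ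
    (Finset.range (⌊1 / η⌋₊ + 1) ×ˢ (Finset.range (⌊2 / η⌋₊ + 1) ×ˢ
      (Finset.univ : Finset (Option (InfinitePlace K)))))) c (R := R) (by
      intro x hx
      rw [hc]
      simp only [Finset.mem_product, Finset.mem_range, Finset.mem_univ, and_true]
      refine ⟨hf1 x hx, ?_, ?_⟩
      · refine Nat.lt_succ_of_le (Nat.floor_le_floor ?_)
        have h1 := hF.pu x hx
        calc Real.log (Nv (p x)) * (1 / (η * L)) ≤ L * (1 / (η * L)) :=
              mul_le_mul_of_nonneg_right h1 (by positivity)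
          _ = 1 / η := by field_simp
      · refine Nat.lt_succ_of_le (Nat.floor_le_floor ?_)
        have h1 := (df_le_hgt (hF.pt x hx) (Sum.inr (p x)) B).trans (hF.hi x hx)
        calc df (Sum.inr (p x) : Pl K) B x * (1 / (η * l)) ≤ (2 * l) * (1 / (η * l)) :=
              mul_le_mul_of_nonneg_right h1 (by positivity)
          _ = 2 / η := by field_simp) (by
      intro b _
      obtain ⟨b1, b2, b3, b4⟩ := b
      obtain ⟨F', hF'⟩ : ∃ F', F' = F.filter fun x => c x = (b1, b2, b3, b4) := ⟨_, rfl⟩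
      rw [← hF']
      have hmem : ∀ x ∈ F', x ∈ F ∧ f x = b1 ∧
          ⌊Real.log (Nv (p x)) * (1 / (η * L))⌋₊ = b2 ∧
          ⌊df (Sum.inr (p x) : Pl K) B x * (1 / (η * l))⌋₊ = b3 ∧ o x = b4 := by
        intro x hx
        rw [hF', Finset.mem_filter, hc] at hx
        obtain ⟨h1, h2⟩ := hx
        simp only [Prod.mk.injEq] at h2
        exact ⟨h1, h2⟩
      have hcls : Cls k S A B C L l η Kp p F' := by
        refine ⟨hF.AB, hF.BC, hF.AC, fun x hx => hF.pt x (hmem x hx).1,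
          fun x hx => hF.lo x (hmem x hx).1, fun x hx => hF.hi x (hmem x hx).1,
          fun x hx => hF.pS x (hmem x hx).1, fun x hx => hF.pB x (hmem x hx).1,
          fun x hx => hF.fB x (hmem x hx).1, fun x hx => hF.fC x (hmem x hx).1,
          fun x hx => hF.pl x (hmem x hx).1, fun x hx => hF.pu x (hmem x hx).1,
          fun x hx => hF.dp x (hmem x hx).1, ?_, ?_, ?_⟩
        · intro x hx y hy
          obtain ⟨x1, x2, _⟩ := hmem x hx
          obtain ⟨y1, y2, _⟩ := hmem y hy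
          exact hf2 x x1 y y1 (x2.trans y2.symm)
        · intro x hx y hy
          obtain ⟨x1, _, x2, _⟩ := hmem x hx
          obtain ⟨y1, _, y2, _⟩ := hmem y hy
          have h1 := floor_close (s := 1 / (η * L)) (by positivity) (log_Nv_pos' (p x)).le
            (log_Nv_pos' (p y)).le (x2.trans y2.symm)
          rwa [one_div_one_div] at h1
        · intro x hx y hy
          obtain ⟨x1, _, _, x2, _⟩ := hmem x hx
          obtain ⟨y1, _, _, y2, _⟩ := hmem y hy
          have h1 := floor_close (s := 1 / (η * l)) (by positivity)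
            (df_nonneg _ _ (hF.pt x x1)) (df_nonneg _ _ (hF.pt y y1)) (x2.trans y2.symm)
          rwa [one_div_one_div] at h1
      rcases b4 with _ | w
      · refine hfin F' hcls fun x hx => ?_
        obtain ⟨x1, _, _, _, x5⟩ := hmem x hx
        rcases ho x x1 with ⟨_, h⟩ | ⟨w, h, _⟩
        · exact h
        · rw [x5] at h
          exact absurd h (by simp)
      · refine hinf F' hcls w fun x hx => ?_
        obtain ⟨x1, _, _, _, x5⟩ := hmem x hx
        rcases ho x x1 with ⟨h, _⟩ | ⟨w', h, h'⟩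
        · rw [x5] at h
          exact absurd h (by simp)
        · rw [x5, Option.some.injEq] at h
          rw [h, ← hr]
          exact h')
  rw [Finset.card_product, Finset.card_product, Finset.card_product, Finset.card_range,
    Finset.card_range, Finset.card_range, Finset.card_univ, Fintype.card_option] at hT
  exact hT

end Pool.Agent.Y884.AK
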