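import Pool.Agent.Y884.AK.MidD

/-!
Prescribed primes of the second kind, heights between `M log X` and `(log X) ^ 3` (helper884).
-/

set_option autoImplicit false

namespace Pool.Agent.Y884.AK

open Finset NumberField IsDedekindDomain Height Pool.Agent.H691R3 Pool.Agent.TH876.Loc
open Pool.Agent.TH876.KR (side aw log_Nv_pos' Near Sc Light InP rho rho_gt scales df_eq_zero
  side_sub log_nn df_int mem_side)
open Pool.Agent.Y728.AK (GB SunFin SunInf MidInP)

variable {K : Type} [Field K] [NumberField K]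

theorem sum_three {A B C : Fin 3} (hAB : A ≠ B) (hBC : B ≠ C) (hAC : A ≠ C) (f : Fin 3 → ℝ) :
    ∑ i, f i = f A + f B + f C := by
  rw [Fin.sum_univ_three]
  fin_cases A <;> fin_cases B <;> fin_cases C <;> simp at hAB hBC hAC ⊢ <;> ring

open Classical in
theorem out_side {x : K} (hx : Pt x) (S : Finset (Pr K)) (A : Fin 3) :
    ∑ v ∈ sp x \ S, df (Sum.inr v : Pl K) A x =
      hgt x - aw A x - ∑ v ∈ S, df (Sum.inr v : Pl K) A x := by
  have h1 := sum_df hx (Finset.subset_union_left : sp x ⊆ sp x ∪ S) A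
  rw [sum_Spl, ← Finset.sdiff_union_self_eq_union, Finset.sum_union Finset.sdiff_disjoint] at h1
  have h2 : ∑ w : InfinitePlace K, df (Sum.inl w : Pl K) A x = aw A x := rfl
  rw [h2] at h1
  linarith

open Classical in
/-- the set with the large prime added is light -/
theorem light_insert {k : ℕ} (hk : 1 ≤ k) {S : Finset (Pr K)} {A B C : Fin 3} (hAB : A ≠ B)
    (hBC : B ≠ C) (hAC : A ≠ C) {x : K} (hx : Pt x) {p : Pr K} (hP : InP k S A B C x p) :
    Light k (insert p S) x := by
  have hk0 : (1 : ℝ) ≤ k := by exact_mod_cast hk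
  unfold Light out
  have h1 : ∀ v ∈ sp x \ (insert p S), gd (Sum.inr v : Pl K) x ≤ df (Sum.inr v : Pl K) A x := by
    intro v hv
    rw [Finset.mem_sdiff, Finset.mem_insert] at hv
    obtain ⟨_, hv2⟩ := hv
    push Not at hv2
    have e1 : df (Sum.inr v : Pl K) B x = 0 := by
      refine df_eq_zero hx fun h => ?_
      have := hP.fB h
      rw [Finset.mem_insert] at this
      rcases this with h | h
      · exact hv2.1 h
      · exact hv2.2 h
    have e2 : df (Sum.inr v : Pl K) C x = 0 := df_eq_zero hx fun h => hv2.2 (hP.fC h)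
    unfold gd
    rw [sum_three hAB hBC hAC, e1, e2]
    linarith
  have h2 : ∑ v ∈ sp x \ (insert p S), df (Sum.inr v : Pl K) A x ≤
      ∑ v ∈ sp x \ S, df (Sum.inr v : Pl K) A x := by
    refine Finset.sum_le_sum_of_subset_of_nonneg ?_ fun v _ _ => df_nonneg _ _ hx
    exact Finset.sdiff_subset_sdiff (Finset.Subset.refl _) (Finset.subset_insert p S)
  have h3 := out_side hx S A
  have h4 := hP.wt
  have h5 : hgt x / k = 1 / (k : ℝ) * hgt x := by ring
  have h6 := Finset.sum_le_sum h1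
  rw [h5] at h4
  have e7 : ∑ v ∈ sp x \ (insert p S), gd (Sum.inr v : Pl K) x ≤ (1 - 1 / (k : ℝ)) * hgt x := by
    linarith
  exact e7

/-- if the large prime has a small exponent the set is light -/
theorem light_small {k : ℕ} (hk : 1 ≤ k) {S : Finset (Pr K)} {A B C : Fin 3} (hAB : A ≠ B)
    (hBC : B ≠ C) (hAC : A ≠ C) {x : K} (hx : Pt x) {p : Pr K} (hP : InP k S A B C x p)
    (hs : 2 * k * df (Sum.inr p : Pl K) B x ≤ hgt x) : Light (2 * k) S x := by
  classical
  have hk0 : (1 : ℝ) ≤ k := by exact_mod_cast hk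
  unfold Light out
  have hd0 := df_nonneg (Sum.inr p : Pl K) B hx
  have h1 : ∀ v ∈ sp x \ S, gd (Sum.inr v : Pl K) x ≤ df (Sum.inr v : Pl K) A x +
      (if v = p then df (Sum.inr p : Pl K) B x else 0) := by
    intro v hv
    rw [Finset.mem_sdiff] at hv
    have e2 : df (Sum.inr v : Pl K) C x = 0 := df_eq_zero hx fun h => hv.2 (hP.fC h)
    unfold gd
    rw [sum_three hAB hBC hAC, e2]
    by_cases hvp : v = p
    · rw [if_pos hvp, hvp]
      linarith
    · have e1 : df (Sum.inr v : Pl K) B x = 0 := by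
        refine df_eq_zero hx fun h => ?_
        have := hP.fB h
        rw [Finset.mem_insert] at this
        rcases this with h | h
        · exact hvp h
        · exact hv.2 h
      rw [if_neg hvp, e1]
      linarith
  have h6 := Finset.sum_le_sum h1
  rw [Finset.sum_add_distrib] at h6
  have h7 : ∑ v ∈ sp x \ S, (if v = p then df (Sum.inr p : Pl K) B x else 0) ≤
      df (Sum.inr p : Pl K) B x := by
    rw [Finset.sum_ite_eq']
    split_ifs
    · exact le_rfl
    · exact hd0
  have h4 := hP.wt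
  have h5 : hgt x / k = 1 / (k : ℝ) * hgt x := by ring
  rw [h5] at h4
  have h8 : ∑ v ∈ sp x \ S, df (Sum.inr v : Pl K) A x =
      hgt x - aw A x - ∑ v ∈ S, df (Sum.inr v : Pl K) A x := out_side hx S A
  have h9 : df (Sum.inr p : Pl K) B x ≤ 1 / (2 * (k : ℝ)) * hgt x := by
    rw [one_div, ← div_eq_inv_mul, le_div_iff₀ (by positivity)]
    linarith
  have h10 : 1 / (2 * (k : ℝ)) * hgt x = 1 / (k : ℝ) * hgt x - 1 / (2 * (k : ℝ)) * hgt x := by
    field_simp
    ring
  have e7 : ∑ v ∈ sp x \ S, gd (Sum.inr v : Pl K) x ≤ (1 - 1 / ((2 * k : ℕ) : ℝ)) * hgt x := by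
    push_cast
    linarith
  exact e7

/-- the number of cells -/
theorem card_cells_le (K : Type) [Field K] [NumberField K] {k : ℕ} (hk : 1 ≤ k) (Kp : ℕ) :
    ∃ X0 : ℝ, 16 ≤ X0 ∧ ∀ X : ℝ, X0 ≤ X → ∀ S : Finset (Pr K), nn S ≤ X →
      (2 : ℝ) ^ (99 * Kp * (Spl S).card) ≤
        2 ^ (99 * Kp * Fintype.card (InfinitePlace K)) * Real.exp (Real.log X / k) := by
  obtain ⟨X1, hX1, hom⟩ := Pool.Agent.Y96.omegaK K
  refine ⟨max X1 (Real.exp (Real.exp (297 * Kp * k))), hX1.trans (le_max_left _ _), ?_⟩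
  intro X hX S hS
  have hXX1 : X1 ≤ X := (le_max_left _ _).trans hX
  have hXe : Real.exp (Real.exp (297 * Kp * k)) ≤ X := (le_max_right _ _).trans hX
  have hX16 : 16 ≤ X := hX1.trans hXX1
  have hX0 : 0 < X := by linarith
  obtain ⟨L, hL⟩ : ∃ L, L = Real.log X := ⟨_, rfl⟩
  have hLe : Real.exp (297 * Kp * k) ≤ L := by rw [hL, Real.le_log_iff_exp_le hX0]; exact hXe
  have hLf := Pool.Agent.TH876.Loc.log_facts hX16
  rw [← hL] at hLf
  have he1 := Real.exp_one_gt_d9
  have hL0 : 0 < L := by linarith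
  have hll : 297 * Kp * k ≤ Real.log L := by rw [Real.le_log_iff_exp_le hL0]; exact hLe
  have hll1 : 1 ≤ Real.log L := by
    rw [Real.le_log_iff_exp_le hL0]; exact hLf
  have h1 := hom X hXX1 S hS
  rw [← hL, le_div_iff₀ (by linarith)] at h1
  rw [card_Spl, mul_add, pow_add, ← hL]
  apply mul_le_mul_of_nonneg_left _ (by positivity)
  have h2 : (2 : ℝ) ^ (99 * Kp * S.card) = Real.exp ((99 * Kp * S.card : ℕ) * Real.log 2) := by
    rw [Real.exp_nat_mul, Real.exp_log (by norm_num)]
  rw [h2]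
  apply Real.exp_le_exp.mpr
  have hk0 : (1 : ℝ) ≤ k := by exact_mod_cast hk
  have hl2 := Real.log_two_lt_d9
  have hl20 : 0 < Real.log 2 := Real.log_pos (by norm_num)
  push_cast
  rw [le_div_iff₀ (by linarith)]
  have h3 : (99 * (Kp : ℝ) * S.card) * Real.log 2 ≤ (99 * Kp * S.card) * 1 :=
    mul_le_mul_of_nonneg_left (by linarith) (by positivity)
  have h4 : (S.card : ℝ) * (297 * Kp * k) ≤ S.card * Real.log L :=
    mul_le_mul_of_nonneg_left hll (by positivity)
  have h5 : (99 * (Kp : ℝ) * S.card) * Real.log 2 * k ≤ (99 * Kp * S.card) * 1 * k :=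
    mul_le_mul_of_nonneg_right h3 (by linarith)
  linarith

end Pool.Agent.Y884.AK
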