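import Pool.Agent.Y884.AK.MidE

/-!
Prescribed primes of the second kind, heights between `M log X` and `(log X) ^ 3`: the parameters
and the count for one set (helper884).
-/

set_option autoImplicit false

namespace Pool.Agent.Y884.AK

open Finset NumberField IsDedekindDomain Height Pool.Agent.H691R3 Pool.Agent.TH876.Loc
open Pool.Agent.TH876.KR (side aw log_Nv_pos' Near Sc Light InP rho rho_gt scales df_eq_zero
  side_sub log_nn df_int mem_side)
open Pool.Agent.Y728.AK (GB SunFin SunInf MidInP)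

/-- the numerical conditions -/
theorem numeric_par {c1 c2 q C1 C' d C0 r : ℝ} {k : ℕ} (hk : 1 ≤ k) (hc1 : 1 ≤ c1) (hc2 : 1 ≤ c2)
    (hq : 1 ≤ q) (hC1 : 1 ≤ C1) (hC' : 1 ≤ C') (hr : 1 ≤ r) (hd : 1 ≤ d) (hC0 : 1 ≤ C0) :
    ∃ η L0 : ℝ, 0 < η ∧ η ≤ 1 ∧ 1 ≤ L0 ∧ c1 * q * C' * η * (2 * k) ≤ 1 ∧
      c2 * q * C' * η * (2 * k) ≤ 1 ∧ c1 * q ^ 2 * C1 * C' * η * (12 * k) ≤ 1 ∧
      c2 * q ^ 2 * C1 * C' * η * (16 * k * r) ≤ 1 ∧ ∀ L : ℝ, L0 ≤ L →
      c1 ≤ L ∧ c2 ≤ L ∧ d * C0 ≤ L ∧ 4 * k * C0 * d ≤ η * L ∧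
      48 * (k : ℝ) ^ 2 ≤ Real.exp (L / c1) * (q * C' * η) ∧
      2 * k * q * C1 * L ^ 3 ≤ Real.exp (L / c2) ∧ c2 * q * C1 * L ≤ Real.exp L := by
  have hk0 : (1 : ℝ) ≤ k := by exact_mod_cast hk
  obtain ⟨c, hc⟩ : ∃ c : ℝ, c = max c1 c2 := ⟨_, rfl⟩
  have hcc1 : c1 ≤ c := by rw [hc]; exact le_max_left _ _
  have hcc2 : c2 ≤ c := by rw [hc]; exact le_max_right _ _
  have hc0 : 1 ≤ c := hc1.trans hcc1
  have hqq : q ≤ q ^ 2 := by rw [pow_two]; exact le_mul_of_one_le_left (by linarith) hq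
  have hkr : (k : ℝ) ≤ k * r := le_mul_of_one_le_right (by linarith) hr
  obtain ⟨P, hP⟩ : ∃ P : ℝ, P = c * q ^ 2 * C1 * C' * (16 * k * r) := ⟨_, rfl⟩
  have hkr1 : 1 ≤ k * r := hk0.trans hkr
  have hP1 : 1 ≤ P := by
    rw [hP]
    calc (1 : ℝ) = 1 * 1 * 1 * 1 * 1 := by norm_num
      _ ≤ c * q ^ 2 * C1 * C' * (16 * k * r) := by
          gcongr
          · exact one_le_pow₀ hq
          · linarith
  have hP0 : 0 < P := by linarith
  have f1 : c1 * q * 1 * C' * (2 * k) ≤ P := by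
    rw [hP]
    calc c1 * q * 1 * C' * (2 * k) ≤ c * q ^ 2 * C1 * C' * (2 * k) := by gcongr
      _ ≤ _ := mul_le_mul_of_nonneg_left (by linarith) (by positivity)
  have f2 : c2 * q * 1 * C' * (2 * k) ≤ P := by
    rw [hP]
    calc c2 * q * 1 * C' * (2 * k) ≤ c * q ^ 2 * C1 * C' * (2 * k) := by gcongr
      _ ≤ _ := mul_le_mul_of_nonneg_left (by linarith) (by positivity)
  have f3 : c1 * q ^ 2 * C1 * C' * (12 * k) ≤ P := by
    rw [hP]
    calc c1 * q ^ 2 * C1 * C' * (12 * k) ≤ c * q ^ 2 * C1 * C' * (12 * k) := by gcongr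
      _ ≤ _ := mul_le_mul_of_nonneg_left (by linarith) (by positivity)
  have f4 : c2 * q ^ 2 * C1 * C' * (16 * k * r) ≤ P := by
    rw [hP]; gcongr
  obtain ⟨η, hη⟩ : ∃ η : ℝ, η = 1 / P := ⟨_, rfl⟩
  have hη0 : 0 < η := by rw [hη]; positivity
  have hPη : P * η = 1 := by rw [hη]; field_simp
  have hη1 : η ≤ 1 := by
    rw [hη, div_le_one hP0]; exact hP1
  have hmul : ∀ a : ℝ, a ≤ P → a * η ≤ 1 := by
    intro a ha
    have := mul_le_mul_of_nonneg_right ha hη0.le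
    linarith
  obtain ⟨L0, hL0⟩ : ∃ L0 : ℝ, L0 = c + d * C0 + 4 * k * C0 * d / η +
    48 * (k : ℝ) ^ 2 * c / (q * C' * η) + 48 * k * q * C1 * c ^ 4 + 2 * c * q * C1 := ⟨_, rfl⟩
  have z1 : 0 ≤ d * C0 := by positivity
  have z2 : 0 ≤ 4 * k * C0 * d / η := by positivity
  have z3 : 0 ≤ 48 * (k : ℝ) ^ 2 * c / (q * C' * η) := by positivity
  have z4 : 0 ≤ 48 * k * q * C1 * c ^ 4 := by positivity
  have z5 : 0 ≤ 2 * c * q * C1 := by positivity
  refine ⟨η, L0, hη0, hη1, by linarith, ?_, ?_, ?_, ?_, ?_⟩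
  · have := hmul _ f1; linarith
  · have := hmul _ f2; linarith
  · have := hmul _ f3; linarith
  · have := hmul _ f4; linarith
  intro L hL
  have hLc : c ≤ L := by linarith
  have hLp : 0 < L := by linarith
  refine ⟨by linarith, by linarith, by linarith, ?_, ?_, ?_, ?_⟩
  · have h1 : 4 * k * C0 * d / η ≤ L := by linarith
    rw [div_le_iff₀ hη0] at h1
    linarith
  · have h1 : 48 * (k : ℝ) ^ 2 * c / (q * C' * η) ≤ L := by linarith
    have hq' : 0 < q * C' * η := by positivity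
    rw [div_le_iff₀ hq'] at h1
    have h2 : L / c ≤ Real.exp (L / c1) := by
      have e1 := Real.add_one_le_exp (L / c1)
      have e2 : L / c ≤ L / c1 := div_le_div_of_nonneg_left hLp.le (by linarith) hcc1
      linarith
    have h3 : L / c * (q * C' * η) ≤ Real.exp (L / c1) * (q * C' * η) :=
      mul_le_mul_of_nonneg_right h2 hq'.le
    refine le_trans ?_ h3
    rw [div_mul_eq_mul_div, le_div_iff₀ (by linarith)]
    exact h1
  · have h1 : 48 * k * q * C1 * c ^ 4 ≤ L := by linarith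
    have h2 : (L / c) ^ 4 / (Nat.factorial 4 : ℕ) ≤ Real.exp (L / c) :=
      Real.pow_div_factorial_le_exp (L / c) (by positivity) 4
    have h3 : Real.exp (L / c) ≤ Real.exp (L / c2) := by
      apply Real.exp_le_exp.mpr
      exact div_le_div_of_nonneg_left hLp.le (by linarith) hcc2
    refine le_trans ?_ (h2.trans h3)
    have h4 : ((Nat.factorial 4 : ℕ) : ℝ) = 24 := by norm_num [Nat.factorial]
    rw [h4, div_pow, div_div, le_div_iff₀ (by positivity)]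
    have h5 := mul_le_mul_of_nonneg_right h1 (show 0 ≤ L ^ 3 by positivity)
    have h6 : L * L ^ 3 = L ^ 4 := by ring
    linarith
  · have h1 : 2 * c * q * C1 ≤ L := by linarith
    have h2 : L ^ 2 / (Nat.factorial 2 : ℕ) ≤ Real.exp L :=
      Real.pow_div_factorial_le_exp L hLp.le 2
    have h4 : ((Nat.factorial 2 : ℕ) : ℝ) = 2 := by norm_num [Nat.factorial]
    rw [h4] at h2
    refine le_trans ?_ h2
    have h5 : c2 * (q * C1 * L) ≤ c * (q * C1 * L) :=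
      mul_le_mul_of_nonneg_right hcc2 (by positivity)
    have h6 := mul_le_mul_of_nonneg_right h1 hLp.le
    have h7 : L * L = L ^ 2 := by ring
    linarith

variable {K : Type} [Field K] [NumberField K]

/-- all scales, one set of primes -/
theorem one_set {h0 : ℕ} {C0 : ℝ} {g0 : Pr K → 𝓞 K} (G : GB K h0 C0 g0)
    (hf : SunFin K h0 g0) (hi : SunInf K h0 g0) {k : ℕ} (hk : 1 ≤ k) :
    ∃ Mh D X0 : ℝ, 1 ≤ Mh ∧ 0 < D ∧ 16 ≤ X0 ∧ ∀ X : ℝ, X0 ≤ X → ∀ (S : Finset (Pr K))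
      (A B C : Fin 3) (p : K → Pr K), nn S ≤ X → A ≠ B → B ≠ C → A ≠ C → ∀ F : Finset K,
      (∀ x ∈ F, Pt x ∧ Mh * Real.log X ≤ hgt x ∧ hgt x ≤ Real.log X ^ 3 ∧
        InP k S A B C x (p x) ∧ Real.log X ≤ k * Real.log (Nv (p x)) ∧ Nv (p x) ≤ X ∧
        hgt x ≤ 2 * k * df (Sum.inr (p x) : Pl K) B x) →
      (F.card : ℝ) ≤ D * Real.exp (Real.log X / k) ^ 3 := by
  classical
  obtain ⟨c1, hc1, hcf⟩ := class_f G hf
  obtain ⟨c2, hc2, hci⟩ := class_i G hi
  have hk0 : (1 : ℝ) ≤ k := by exact_mod_cast hk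
  have hkp : (0 : ℝ) < k := by linarith
  have hh0 : (0 : ℝ) ≤ h0 := Nat.cast_nonneg _
  obtain ⟨C', hC'⟩ : ∃ C' : ℝ, C' = h0 * (6 * k + 3) + 1 := ⟨_, rfl⟩
  obtain ⟨C1, hC1⟩ : ∃ C1 : ℝ, C1 = 2 * h0 + 1 := ⟨_, rfl⟩
  obtain ⟨q, hq⟩ : ∃ q : ℝ, q = 24 * (k : ℝ) ^ 2 := ⟨_, rfl⟩
  obtain ⟨r, hr⟩ : ∃ r : ℝ, r = (Fintype.card (InfinitePlace K) : ℝ) := ⟨_, rfl⟩
  obtain ⟨d, hd⟩ : ∃ d : ℝ, d = (Module.finrank ℚ K : ℝ) := ⟨_, rfl⟩
  have hC'1 : 1 ≤ C' := by
    rw [hC']; linarith [mul_nonneg hh0 (show (0:ℝ) ≤ 6 * k + 3 by positivity)]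
  have hC11 : 1 ≤ C1 := by rw [hC1]; linarith
  have hq1 : 1 ≤ q := by
    rw [hq]
    have : (1 : ℝ) ≤ (k : ℝ) ^ 2 := one_le_pow₀ hk0
    linarith
  have hr1 : 1 ≤ r := by
    rw [hr]
    have : 0 < Fintype.card (InfinitePlace K) := Fintype.card_pos
    exact_mod_cast this
  have hd1 : 1 ≤ d := by
    rw [hd]
    exact_mod_cast Nat.succ_le_of_lt (Module.finrank_pos (R := ℚ) (M := K))
  obtain ⟨η, L0, hη, hη1, hL01, n1, n2, n3, n4, hnum⟩ :=
    numeric_par hk hc1 hc2 hq1 hC11 hC'1 hr1 hd1 G.C1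
  obtain ⟨Kp, hKp⟩ : ∃ Kp : ℕ, Kp = max k ⌈1 / η⌉₊ := ⟨_, rfl⟩
  have hkKp : k ≤ Kp := by rw [hKp]; exact le_max_left _ _
  have hKp1 : 1 ≤ Kp := hk.trans hkKp
  have hηKp : 1 ≤ η * Kp := by
    have h1 : 1 / η ≤ (⌈1 / η⌉₊ : ℝ) := Nat.le_ceil _
    have h2 : ((⌈1 / η⌉₊ : ℕ) : ℝ) ≤ Kp := by
      rw [hKp]; exact_mod_cast le_max_right k ⌈1 / η⌉₊
    have h3 : 1 / η ≤ Kp := h1.trans h2
    rw [div_le_iff₀ hη] at h3
    linarith
  obtain ⟨X1, hX1, hcells⟩ := card_cells_le K hk Kp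
  obtain ⟨D4, hD4, hlog⟩ := Pool.Agent.Y728.log_pow_leK 3 (show (0 : ℝ) < 1 / (k : ℝ) by positivity)
  have hρ := rho_gt hk
  have hρ0 : 0 < rho k := by linarith
  have hlρ : 0 < Real.log (rho k) := Real.log_pos hρ
  obtain ⟨Mh, hMh⟩ : ∃ Mh : ℝ, Mh = 24 * k * r / η := ⟨_, rfl⟩
  have hMh24 : 24 * k * r = Mh * η := by rw [hMh]; field_simp
  have hkr : 1 ≤ k * r := by
    have := mul_le_mul hk0 hr1 (by norm_num) (by linarith)
    linarith
  have hMh1 : 1 ≤ Mh := by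
    rw [hMh, le_div_iff₀ hη]
    linarith
  obtain ⟨R0, hR0⟩ : ∃ R0 : ℝ, R0 = 3 * (2 * q + 1) := ⟨_, rfl⟩
  obtain ⟨N0, hN0⟩ : ∃ N0 : ℕ, N0 = (⌊1 / η⌋₊ + 1) * ((⌊2 / η⌋₊ + 1) *
      (Fintype.card (InfinitePlace K) + 1)) := ⟨_, rfl⟩
  obtain ⟨D5, hD5⟩ : ∃ D5 : ℝ, D5 = 2 ^ (99 * Kp * Fintype.card (InfinitePlace K)) * N0 * R0 :=
    ⟨_, rfl⟩
  have hD50 : 0 < D5 := by
    rw [hD5, hN0, hR0]
    positivity
  refine ⟨Mh, (1 / Real.log (rho k) + 1) * D4 * D5, max (max 16 X1) (Real.exp L0), hMh1,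
    by positivity, (le_max_left _ _).trans (le_max_left _ _), ?_⟩
  intro X hX S A B C p hnS hAB hBC hAC F hF
  have hX16 : 16 ≤ X := ((le_max_left _ _).trans (le_max_left _ _)).trans hX
  have hXX1 : X1 ≤ X := ((le_max_right _ _).trans (le_max_left _ _)).trans hX
  have hXe : Real.exp L0 ≤ X := (le_max_right _ _).trans hX
  have hX0 : 0 < X := by linarith
  have hX1' : 1 ≤ X := by linarith
  obtain ⟨L, hL⟩ : ∃ L, L = Real.log X := ⟨_, rfl⟩
  have hLL : L0 ≤ L := by rw [hL, Real.le_log_iff_exp_le hX0]; exact hXe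
  have hL1 : 1 ≤ L := hL01.trans hLL
  have hLp : 0 < L := by linarith
  obtain ⟨m1, m2, m3, m4, m5, m6, m7⟩ := hnum L hLL
  rw [← hL] at hF ⊢
  obtain ⟨e, he⟩ : ∃ e, e = Real.exp (L / k) := ⟨_, rfl⟩
  have he1 : 1 ≤ e := by rw [he]; exact Real.one_le_exp (by positivity)
  have hlogS : Real.log (nn S) ≤ L := by
    rw [hL]
    exact Real.log_le_log (nn_pos S) hnS
  rw [← he]
  rcases F.eq_empty_or_nonempty with hFe | ⟨x0, hx0⟩
  · rw [hFe, Finset.card_empty, Nat.cast_zero]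
    positivity
  obtain ⟨l0, hl0⟩ : ∃ l0, l0 = Mh * L := ⟨_, rfl⟩
  have hl01 : 1 ≤ l0 := by
    rw [hl0]
    have := mul_le_mul hMh1 hL1 (by norm_num) (by linarith)
    linarith
  have hl00 : 0 < l0 := by linarith
  have hlH : l0 ≤ L ^ 3 := by
    obtain ⟨_, b1, b2, _⟩ := hF x0 hx0
    rw [hl0]
    exact b1.trans b2
  obtain ⟨J, hJ, hcard⟩ := scales hk hl00 hlH F (fun x hx => by
    obtain ⟨_, b1, b2, _⟩ := hF x hx
    rw [hl0]
    exact ⟨b1, b2⟩)
  have hone : ∀ j ∈ Finset.range (J + 1), ((F.filter fun x => Sc k (l0 * rho k ^ j) x).card : ℝ) ≤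
      D5 * (e * e) := by
    intro j hj
    have hj' : j ≤ J := Nat.lt_succ_iff.1 (Finset.mem_range.1 hj)
    obtain ⟨l, hl⟩ : ∃ l, l = l0 * rho k ^ j := ⟨_, rfl⟩
    have hll0 : l0 ≤ l := by
      rw [hl]; exact le_mul_of_one_le_right hl00.le (one_le_pow₀ hρ.le)
    have hlp : 0 < l := by linarith
    have hlL3 : l ≤ L ^ 3 := by
      rw [hl]
      exact (mul_le_mul_of_nonneg_left (pow_le_pow_right₀ hρ.le hj') hl00.le).trans hJ
    rw [← hl]
    have hηl : 24 * k * r * L ≤ η * l := by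
      have h1 := mul_le_mul_of_nonneg_left hll0 hη.le
      rw [hMh24]
      rw [hl0] at h1
      linarith
    have hkL : (k : ℝ) * L ≤ k * r * L := by
      have h1 : (k : ℝ) * 1 ≤ k * r := mul_le_mul_of_nonneg_left hr1 hkp.le
      have := mul_le_mul_of_nonneg_right h1 hLp.le
      linarith
    have hkL0 : 0 < (k : ℝ) * L := by positivity
    have hP : PCls k S A B C L l p (F.filter fun x => Sc k l x) := by
      have hm : ∀ x ∈ F.filter (fun x => Sc k l x), x ∈ F ∧ Sc k l x := fun x hx =>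
        Finset.mem_filter.1 hx
      refine ⟨hAB, hBC, hAC, fun x hx => (hF x (hm x hx).1).1, fun x hx => (hm x hx).2.1, ?_,
        fun x hx => (hF x (hm x hx).1).2.2.2.1.pS, fun x hx => (hF x (hm x hx).1).2.2.2.1.pB,
        ?_, fun x hx => (hF x (hm x hx).1).2.2.2.1.fC, fun x hx => (hF x (hm x hx).1).2.2.2.2.1,
        ?_, ?_, ?_⟩
      · intro x hx
        have h1 := (hm x hx).2.2
        have h2 : (1 + 1 / (4 * (k : ℝ))) * l ≤ 2 * l := by
          apply mul_le_mul_of_nonneg_right _ hlp.le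
          have h3 : 1 / (4 * (k : ℝ)) ≤ 1 := by
            rw [div_le_one (by positivity)]; linarith
          linarith
        exact h1.trans h2
      · intro x hx v hv
        have h1 := (hF x (hm x hx).1).2.2.2.1.fB hv
        rw [Finset.mem_insert] at h1
        exact h1
      · intro x hx
        rw [hL]
        have h1 := (hF x (hm x hx).1).2.2.2.2.2.1
        have h2 := two_le_Nv (p x)
        exact Real.log_le_log (by linarith) h1
      · intro x hx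
        have h1 := (hF x (hm x hx).1).2.2.2.2.2.2
        have h2 := (hm x hx).2.1
        linarith
      · intro x hx
        have h1 := (hF x (hm x hx).1).2.2.2.1.wt
        rw [div_le_iff₀ hkp] at h1
        linarith
    have h1 := split_classes hk (η := η) (R := R0 * e) hKp1 hP hLp hlp hη
      (fun F' hF' hfin => by
        rw [hR0, he]
        exact hcf hk hF' hη hLp hlp hηKp hkKp hlogS hC' hC1 hq m1 (by rw [← hd]; exact m3)
          (by rw [← hd]; exact m4) n1 n3 (by linarith) hη1 m5 hfin)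
      (fun F' hF' w hw => by
        rw [hR0, he]
        rw [← hr] at hw
        exact hci hk w hF' hη hLp hlp hr1 hηKp hC' hC1 hq m2 (by rw [← hd]; exact m3)
          (by rw [← hd]; exact m4) n2 n4 (by linarith) hη1 hlL3 m6 m7 hw)
    refine h1.trans ?_
    rw [← hN0]
    push_cast
    have h2 := hcells X hXX1 S hnS
    rw [← hL, ← he] at h2
    have h3 : (2 : ℝ) ^ (99 * Kp * (Spl S).card) * N0 * (R0 * e) ≤
        (2 ^ (99 * Kp * Fintype.card (InfinitePlace K)) * e) * N0 * (R0 * e) := by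
      apply mul_le_mul_of_nonneg_right _ (by rw [hR0]; positivity)
      exact mul_le_mul_of_nonneg_right h2 (by positivity)
    refine h3.trans (le_of_eq ?_)
    rw [hD5]
    ring
  have h2 : (F.card : ℝ) ≤ ∑ j ∈ Finset.range (J + 1),
      ((F.filter fun x => Sc k (l0 * rho k ^ j) x).card : ℝ) := by exact_mod_cast hcard
  have h4 := h2.trans (Finset.sum_le_sum hone)
  rw [Finset.sum_const, Finset.card_range, nsmul_eq_mul] at h4
  have hJ1 : ((J + 1 : ℕ) : ℝ) ≤ (1 / Real.log (rho k) + 1) * D4 * e := by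
    have e1 : rho k ^ J ≤ L ^ 3 := by
      refine le_trans ?_ hJ
      exact le_mul_of_one_le_left (by positivity) hl01
    have e2 := Real.log_le_log (by positivity) e1
    rw [Real.log_pow] at e2
    have e3 : Real.log (L ^ 3) ≤ L ^ 3 := Real.log_le_self (by positivity)
    have e4 : (J : ℝ) ≤ 1 / Real.log (rho k) * L ^ 3 := by
      rw [one_div, ← div_eq_inv_mul, le_div_iff₀ hlρ]
      exact e2.trans e3
    have e5 : 1 + L ^ 3 ≤ D4 * e := by
      have := hlog X hX1'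
      rw [← hL] at this
      have e6 : X ^ (1 / (k : ℝ)) = e := by
        rw [Real.rpow_def_of_pos hX0, ← hL, he]
        congr 1
        ring
      rw [e6] at this
      exact this
    have e7 : 0 < 1 / Real.log (rho k) := by positivity
    have e8 : 0 ≤ L ^ 3 := by positivity
    calc ((J + 1 : ℕ) : ℝ) = (J : ℝ) + 1 := by push_cast; ring
      _ ≤ (1 / Real.log (rho k) + 1) * (1 + L ^ 3) := by
          have : (1 / Real.log (rho k) + 1) * (1 + L ^ 3) =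
            1 / Real.log (rho k) + 1 + 1 / Real.log (rho k) * L ^ 3 + L ^ 3 := by ring
          rw [this]
          linarith only [e4, e7, e8]
      _ ≤ (1 / Real.log (rho k) + 1) * (D4 * e) :=
          mul_le_mul_of_nonneg_left e5 (by positivity)
      _ = _ := by ring
  calc (F.card : ℝ) ≤ ((J + 1 : ℕ) : ℝ) * (D5 * (e * e)) := h4
    _ ≤ ((1 / Real.log (rho k) + 1) * D4 * e) * (D5 * (e * e)) :=
        mul_le_mul_of_nonneg_right hJ1 (by positivity)
    _ = _ := by ring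

end Pool.Agent.Y884.AK
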